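import Pool.Agent.H522R3.Nlr.Ode

/-! Positive orbits: potential bound and two-point comparison. -/

open MeasureTheory Set Filter Topology

namespace Pool.Agent.H522R3.Nlr

variable {T k G M a : ℝ} {g v U : ℝ → ℝ}

theorem Orb.init (h : Orb T k G M a g v U) (hT : 0 ≤ T) : U 0 = a := by
  have := h.eq 0 ⟨le_rfl, hT⟩
  simpa using this

theorem Orb.pos (h : Orb T k G M a g v U) (hk : 0 ≤ k) (hkT : k * T ≤ 1 / 2) (ha : 0 < a)
    {t : ℝ} (ht : t ∈ Icc 0 T) : a / 2 ≤ U t := by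
  have h1 := h.half hk hkT le_rfl ht.1 ht.2
  rw [h.init (ht.1.trans ht.2)] at h1
  linarith

theorem Orb.eta (h : Orb T k G M a g v U) (hk : 0 ≤ k) (hkT : k * T ≤ 1 / 2) (ha : 0 < a)
    {t : ℝ} (ht : t ∈ Icc 0 T) :
    (U t)⁻¹ ^ 2 / 2 = a⁻¹ ^ 2 / 2
      + ∫ s in (0:ℝ)..t, - (U s)⁻¹ ^ 3 * (g s - k * U s + v s * U s ^ 3) :=
  chain_inv (b := T) (c := a / 2) (ht.1.trans ht.2) (by positivity) h.mh (h.hB hk) h.eq
    (fun s hs => h.pos hk hkT ha hs) t ht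

theorem Orb.etaInt (h : Orb T k G M a g v U) (hk : 0 ≤ k) (hkT : k * T ≤ 1 / 2) (ha : 0 < a)
    {t : ℝ} (ht : t ∈ Icc 0 T) :
    IntervalIntegrable (fun s => - (U s)⁻¹ ^ 3 * (g s - k * U s + v s * U s ^ 3)) volume 0 t := by
  refine ii_of_bdd (C := (2 / a) ^ 3 * (G + k * M + M ^ 3)) ht.1 ?_ ?_
  · exact ((h.mU.inv.pow_const 3).neg).mul h.mh
  · intro s hs
    have hs' : s ∈ Icc 0 T := ⟨hs.1, hs.2.trans ht.2⟩
    have h1 := h.pos hk hkT ha hs'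
    have h2 : (U s)⁻¹ ≤ 2 / a := by
      rw [show 2 / a = (a / 2)⁻¹ by field_simp]
      exact inv_anti₀ (by positivity) h1
    have h3 : 0 < (U s)⁻¹ := inv_pos.2 (by linarith)
    have h4 := h.hB hk s hs'
    rw [abs_mul, abs_neg, abs_of_pos (by positivity)]
    have h5 : (U s)⁻¹ ^ 3 ≤ (2 / a) ^ 3 := pow_le_pow_left₀ h3.le h2 3
    exact mul_le_mul h5 h4 (abs_nonneg _) (by positivity)

theorem Orb.vInt (h : Orb T k G M a g v U) {t : ℝ} (ht : t ∈ Icc 0 T) :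
    IntervalIntegrable v volume 0 t :=
  ii_of_bdd (C := 1) ht.1 h.mv fun s hs => by
    obtain ⟨v1, v2⟩ := h.v0 s ⟨hs.1, hs.2.trans ht.2⟩
    rwa [abs_of_nonneg v1]

theorem Orb.rInv (h : Orb T k G M a g v U) (hk : 0 ≤ k) (hkT : k * T ≤ 1 / 2) (ha : 0 < a)
    {t : ℝ} (ht : t ∈ Icc 0 T) : 0 < (U t)⁻¹ ∧ (U t)⁻¹ ^ 2 ≤ 4 * a⁻¹ ^ 2 := by
  have h1 := h.pos hk hkT ha ht
  have h2 : (U t)⁻¹ ≤ 2 * a⁻¹ := by
    rw [show 2 * a⁻¹ = (a / 2)⁻¹ by field_simp]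
    exact inv_anti₀ (by positivity) h1
  have h3 : 0 < (U t)⁻¹ := inv_pos.2 (by linarith)
  refine ⟨h3, ?_⟩
  calc (U t)⁻¹ ^ 2 ≤ (2 * a⁻¹) ^ 2 := pow_le_pow_left₀ h3.le h2 2
    _ = 4 * a⁻¹ ^ 2 := by ring

/-- The potential stays below `5 / (2 a²)` where the initial value is `a`. -/
theorem Orb.vbound (h : Orb T k G M a g v U) (hk : 0 ≤ k) (hkT : k * T ≤ 1 / 2) (ha : 0 < a)
    {t : ℝ} (ht : t ∈ Icc 0 T) : ∫ s in (0:ℝ)..t, v s ≤ 5 / 2 * a⁻¹ ^ 2 := by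
  have h1 := h.eta hk hkT ha ht
  have h2 : ∫ s in (0:ℝ)..t, - (U s)⁻¹ ^ 3 * (g s - k * U s + v s * U s ^ 3)
      ≤ ∫ s in (0:ℝ)..t, (k * (4 * a⁻¹ ^ 2) - v s) := by
    refine intervalIntegral.integral_mono_on ht.1 (h.etaInt hk hkT ha ht)
      (intervalIntegrable_const.sub (h.vInt ht)) fun s hs => ?_
    have hs' : s ∈ Icc 0 T := ⟨hs.1, hs.2.trans ht.2⟩
    obtain ⟨r1, r2⟩ := h.rInv hk hkT ha hs'
    have h3 : U s ≠ 0 := by
      intro h0; rw [h0, inv_zero] at r1; exact lt_irrefl _ r1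
    obtain ⟨g1, g2⟩ := h.g0 s hs'
    have h4 : - (U s)⁻¹ ^ 3 * (g s - k * U s + v s * U s ^ 3)
        = - (U s)⁻¹ ^ 3 * g s + k * (U s)⁻¹ ^ 2 - v s := by
      field_simp
      ring
    rw [h4]
    have h5 : 0 ≤ (U s)⁻¹ ^ 3 * g s := by positivity
    have h6 : k * (U s)⁻¹ ^ 2 ≤ k * (4 * a⁻¹ ^ 2) := by gcongr
    linarith
  rw [intervalIntegral.integral_sub intervalIntegrable_const (h.vInt ht),
    intervalIntegral.integral_const, smul_eq_mul] at h2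
  have h3 : 0 ≤ (U t)⁻¹ ^ 2 / 2 := by positivity
  have h4 : (t - 0) * (k * (4 * a⁻¹ ^ 2)) ≤ 2 * a⁻¹ ^ 2 := by
    have h5 : k * t ≤ 1 / 2 := le_trans (mul_le_mul_of_nonneg_left ht.2 hk) hkT
    have h6 : 0 ≤ a⁻¹ ^ 2 := by positivity
    nlinarith
  linarith

theorem cube_sub_le {r r' : ℝ} (h' : 0 < r') (hrr : r' ≤ r) :
    r ^ 3 - r' ^ 3 ≤ 3 / 2 * r * (r ^ 2 - r' ^ 2) := by
  have : 3 / 2 * r * (r ^ 2 - r' ^ 2) - (r ^ 3 - r' ^ 3)
      = (r - r') * ((r - r') * (r / 2 + r')) := by ring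
  have h2 : 0 ≤ (r - r') * ((r - r') * (r / 2 + r')) := by
    have : 0 < r := h'.trans_le hrr
    have h3 : 0 ≤ r - r' := by linarith
    positivity
  linarith

/-- Two-point comparison. -/
theorem compare {b β γ D R Λ : ℝ} {g' v' U' : ℝ → ℝ}
    (hx : Orb T k G M a g v U) (hy : Orb T k G M b g' v' U')
    (hk : 0 ≤ k) (hkT : k * T ≤ 1 / 4) (ha : 0 < a) (hb : 0 < b) (hG : 0 ≤ G) (hD0 : 0 ≤ D)
    (hR0 : 0 ≤ R) (hγ : ∀ t ∈ Icc 0 T, |g t - g' t| ≤ γ)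
    (hβ : b⁻¹ ^ 2 / 2 + β ≤ a⁻¹ ^ 2 / 2)
    (hD : ∀ t ∈ Icc 0 T, |(∫ s in (0:ℝ)..t, v' s) - (∫ s in (0:ℝ)..t, v s) + β| ≤ D)
    (hR : ∀ t ∈ Icc 0 T,
      4 * b⁻¹ ^ 2 + 2 * ((∫ s in (0:ℝ)..t, v' s) - (∫ s in (0:ℝ)..t, v s) + β) ≤ R ^ 2)
    (hΛ : 2 * (2 * k * D + γ * R ^ 3 + 3 * G * R * D) ≤ Λ) (t : ℝ) (ht : t ∈ Icc 0 T) :
    (U' t)⁻¹ ^ 2 / 2 + ((∫ s in (0:ℝ)..t, v' s) - (∫ s in (0:ℝ)..t, v s) + β) - Λ * t
      ≤ (U t)⁻¹ ^ 2 / 2 := by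
  have hT : 0 ≤ T := ht.1.trans ht.2
  have hkT' : k * T ≤ 1 / 2 := by linarith
  have hTT : T ∈ Icc 0 T := ⟨hT, le_rfl⟩
  have hγ0 : 0 ≤ γ := (abs_nonneg _).trans (hγ T hTT)
  have hΛ0 : 0 ≤ Λ := le_trans (by positivity) hΛ
  have ix := hx.etaInt hk hkT' ha hTT
  have iy := hy.etaInt hk hkT' hb hTT
  have jx := hx.vInt hTT
  have jy := hy.vInt hTT
  have sub : ∀ {f : ℝ → ℝ} {s : ℝ}, s ∈ Icc 0 T → IntervalIntegrable f volume 0 T →
      IntervalIntegrable f volume 0 s := by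
    intro f s hs hf
    refine hf.mono_set ?_
    rw [uIcc_of_le hs.1, uIcc_of_le hT]
    exact Icc_subset_Icc le_rfl hs.2
  have key := nonpos_of_integral (a := 0) (b := T) (Λ := 2 * k)
    (w0 := b⁻¹ ^ 2 / 2 + β - a⁻¹ ^ 2 / 2)
    (w := fun t => (U' t)⁻¹ ^ 2 / 2 + ((∫ s in (0:ℝ)..t, v' s) - (∫ s in (0:ℝ)..t, v s) + β)
      - Λ * t - (U t)⁻¹ ^ 2 / 2)
    (h := fun s => (- (U' s)⁻¹ ^ 3 * (g' s - k * U' s + v' s * U' s ^ 3) + (v' s - v s) - Λ)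
      - (- (U s)⁻¹ ^ 3 * (g s - k * U s + v s * U s ^ 3))) (by positivity)
    (((iy.add (jy.sub jx)).sub intervalIntegrable_const).sub ix) ?_ (by linarith) ?_ t ht
  · linarith
  · intro s hs
    have e1 := hx.eta hk hkT' ha hs
    have e2 := hy.eta hk hkT' hb hs
    rw [intervalIntegral.integral_sub
        (((sub hs iy).add ((sub hs jy).sub (sub hs jx))).sub intervalIntegrable_const) (sub hs ix),
      intervalIntegral.integral_sub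
        ((sub hs iy).add ((sub hs jy).sub (sub hs jx))) intervalIntegrable_const,
      intervalIntegral.integral_add (sub hs iy) ((sub hs jy).sub (sub hs jx)),
      intervalIntegral.integral_sub (sub hs jy) (sub hs jx), intervalIntegral.integral_const,
      smul_eq_mul]
    rw [e1, e2]
    ring
  · refine Eventually.of_forall fun s hs hpos => ?_
    obtain ⟨x1, x2⟩ := hx.rInv hk hkT' ha hs
    obtain ⟨y1, y2⟩ := hy.rInv hk hkT' hb hs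
    have hX := hD s hs
    have hXR := hR s hs
    have hg := hγ s hs
    obtain ⟨gx1, gx2⟩ := hx.g0 s hs
    obtain ⟨gy1, gy2⟩ := hy.g0 s hs
    set X := (∫ s in (0:ℝ)..s, v' s) - (∫ s in (0:ℝ)..s, v s) + β with hXd
    have h3 : U s ≠ 0 := by
      intro h0; rw [h0, inv_zero] at x1; exact lt_irrefl _ x1
    have h3' : U' s ≠ 0 := by
      intro h0; rw [h0, inv_zero] at y1; exact lt_irrefl _ y1
    have h4 : - (U s)⁻¹ ^ 3 * (g s - k * U s + v s * U s ^ 3)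
        = - (U s)⁻¹ ^ 3 * g s + k * (U s)⁻¹ ^ 2 - v s := by
      field_simp
      ring
    have h4' : - (U' s)⁻¹ ^ 3 * (g' s - k * U' s + v' s * U' s ^ 3)
        = - (U' s)⁻¹ ^ 3 * g' s + k * (U' s)⁻¹ ^ 2 - v' s := by
      field_simp
      ring
    simp only [h4, h4']
    set r := (U s)⁻¹ with hr
    set r' := (U' s)⁻¹ with hr'
    have hs0 : 0 ≤ Λ * s := mul_nonneg hΛ0 hs.1
    have hXabs := abs_le.1 hX
    have hr2 : r ^ 2 ≤ R ^ 2 := by linarith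
    have hrR : r ≤ R := abs_le_of_sq_le_sq' hr2 hR0 |>.2
    have hr3 : r ^ 3 ≤ R ^ 3 := pow_le_pow_left₀ x1.le hrR 3
    have hgg : (g s - g' s) * r ^ 3 ≤ γ * R ^ 3 := by
      calc (g s - g' s) * r ^ 3 ≤ γ * r ^ 3 := by
            refine mul_le_mul_of_nonneg_right ((le_abs_self _).trans hg) (by positivity)
        _ ≤ γ * R ^ 3 := by gcongr
    have hcub : g' s * (r ^ 3 - r' ^ 3) ≤ 3 * G * R * D := by
      rcases le_total r r' with hle | hle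
      · have h5 : r ^ 3 ≤ r' ^ 3 := pow_le_pow_left₀ x1.le hle 3
        have h6 : g' s * (r ^ 3 - r' ^ 3) ≤ 0 :=
          mul_nonpos_of_nonneg_of_nonpos gy1 (by linarith)
        have h7 : 0 ≤ 3 * G * R * D := by positivity
        linarith
      · have h5 := cube_sub_le y1 hle
        have h6 : r ^ 2 - r' ^ 2 ≤ 2 * D := by linarith [hXabs.2]
        have h7 : 3 / 2 * r * (r ^ 2 - r' ^ 2) ≤ 3 / 2 * r * (2 * D) :=
          mul_le_mul_of_nonneg_left h6 (by positivity)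
        have h8 : 3 / 2 * r * (2 * D) ≤ 3 / 2 * R * (2 * D) := by gcongr
        have h9 : r ^ 3 - r' ^ 3 ≤ 3 * R * D := by linarith
        calc g' s * (r ^ 3 - r' ^ 3) ≤ g' s * (3 * R * D) := mul_le_mul_of_nonneg_left h9 gy1
          _ ≤ G * (3 * R * D) := mul_le_mul_of_nonneg_right gy2 (by positivity)
          _ = 3 * G * R * D := by ring
    have hkΛ : 2 * k * (Λ * s) ≤ Λ / 2 := by
      have h5 : k * s ≤ 1 / 4 := le_trans (mul_le_mul_of_nonneg_left hs.2 hk) hkT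
      nlinarith
    have hkX : 2 * k * (-X) ≤ 2 * k * D :=
      mul_le_mul_of_nonneg_left (by linarith [hXabs.1]) (by positivity)
    have e5 : - r' ^ 3 * g' s + k * r' ^ 2 - v' s + (v' s - v s) - Λ
        - (- r ^ 3 * g s + k * r ^ 2 - v s)
        = 2 * k * (r' ^ 2 / 2 + X - Λ * s - r ^ 2 / 2) + 2 * k * (-X) + 2 * k * (Λ * s)
          + (g s - g' s) * r ^ 3 + g' s * (r ^ 3 - r' ^ 3) - Λ := by ring
    rw [e5]
    linarith

end Pool.Agent.H522R3.Nlr
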