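import Pool.Agent.H522R3.Nlr.Last

/-! Assembly: no bounded weak solution for a suitable Lipschitz datum. -/

open MeasureTheory Set Filter Topology
open scoped ContDiff

namespace Pool.Agent.H522R3.Nlr

/-- Trapezoid of height `A` with foot length `δ`. -/
noncomputable def trap (A δ x : ℝ) : ℝ := A * max 0 (min 1 (min (1 - (x - 1) / δ) (1 + x / δ)))

section trap

variable {A δ : ℝ}

theorem trap_bounds (hA : 0 ≤ A) (x : ℝ) : 0 ≤ trap A δ x ∧ trap A δ x ≤ A := by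
  have h1 : 0 ≤ max 0 (min 1 (min (1 - (x - 1) / δ) (1 + x / δ))) := le_max_left _ _
  have h2 : max 0 (min 1 (min (1 - (x - 1) / δ) (1 + x / δ))) ≤ 1 :=
    max_le zero_le_one (min_le_left _ _)
  refine ⟨mul_nonneg hA h1, ?_⟩
  unfold trap
  nlinarith

theorem trap_mid (hδ : 0 < δ) {x : ℝ} (hx : x ∈ Icc (0:ℝ) 1) : trap A δ x = A := by
  have h1 : 1 ≤ 1 - (x - 1) / δ := by
    have : (x - 1) / δ ≤ 0 := div_nonpos_of_nonpos_of_nonneg (by linarith [hx.2]) hδ.le
    linarith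
  have h2 : 1 ≤ 1 + x / δ := by
    have : 0 ≤ x / δ := div_nonneg hx.1 hδ.le
    linarith
  rw [trap, min_eq_left (le_min h1 h2), max_eq_right zero_le_one, mul_one]

theorem trap_right (hδ : 0 < δ) {x : ℝ} (hx : 1 + δ ≤ x) : trap A δ x = 0 := by
  have h1 : 1 - (x - 1) / δ ≤ 0 := by
    have : 1 ≤ (x - 1) / δ := by rw [le_div_iff₀ hδ]; linarith
    linarith
  rw [trap, max_eq_left ((min_le_right _ _).trans ((min_le_left _ _).trans h1)), mul_zero]

theorem trap_left (hδ : 0 < δ) {x : ℝ} (hx : x ≤ -δ) : trap A δ x = 0 := by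
  have h1 : 1 + x / δ ≤ 0 := by
    have : x / δ ≤ -1 := by rw [div_le_iff₀ hδ]; linarith
    linarith
  rw [trap, max_eq_left ((min_le_right _ _).trans ((min_le_right _ _).trans h1)), mul_zero]

theorem trap_foot (hδ : 0 < δ) {x : ℝ} (hx : x ∈ Ioo 1 (1 + δ)) :
    trap A δ x = A * (1 - (x - 1) / δ) := by
  have h0 : 0 < (x - 1) / δ := div_pos (by linarith [hx.1]) hδ
  have h1 : (x - 1) / δ < 1 := by rw [div_lt_iff₀ hδ]; linarith [hx.2]
  have h2 : 1 ≤ 1 + x / δ := by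
    have : 0 ≤ x / δ := div_nonneg (by linarith [hx.1]) hδ.le
    linarith
  rw [trap, min_eq_left (by linarith : 1 - (x - 1) / δ ≤ 1 + x / δ),
    min_eq_right (by linarith : 1 - (x - 1) / δ ≤ 1), max_eq_right (by linarith)]

theorem trap_lip (A : ℝ) (hδ : 0 < δ) : ∃ L, LipschitzWith L (trap A δ) := by
  have h1 : LipschitzWith (Real.toNNReal (1 / δ)) (fun x : ℝ => 1 - (x - 1) / δ) := by
    refine LipschitzWith.of_dist_le_mul fun x y => ?_
    rw [Real.dist_eq, Real.dist_eq, Real.coe_toNNReal _ (by positivity)]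
    rw [show 1 - (x - 1) / δ - (1 - (y - 1) / δ) = (1 / δ) * (-(x - y)) by ring, abs_mul, abs_neg,
      abs_of_pos (by positivity : 0 < 1 / δ)]
  have h2 : LipschitzWith (Real.toNNReal (1 / δ)) (fun x : ℝ => 1 + x / δ) := by
    refine LipschitzWith.of_dist_le_mul fun x y => ?_
    rw [Real.dist_eq, Real.dist_eq, Real.coe_toNNReal _ (by positivity)]
    rw [show 1 + x / δ - (1 + y / δ) = (1 / δ) * (x - y) by ring, abs_mul,
      abs_of_pos (by positivity : 0 < 1 / δ)]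
  have h3 := (LipschitzWith.const (0:ℝ)).max ((LipschitzWith.const (1:ℝ)).min (h1.min h2))
  refine ⟨Real.toNNReal |A| * max 0 (max 0 (max (Real.toNNReal (1 / δ)) (Real.toNNReal (1 / δ)))),
    LipschitzWith.of_dist_le_mul fun x y => ?_⟩
  have h4 := h3.dist_le_mul x y
  rw [Real.dist_eq] at h4 ⊢
  rw [trap, trap, ← mul_sub, abs_mul, NNReal.coe_mul, Real.coe_toNNReal _ (abs_nonneg A),
    mul_assoc]
  exact mul_le_mul_of_nonneg_left h4 (abs_nonneg A)

theorem trap_supp (A : ℝ) (hδ : 0 < δ) : HasCompactSupport (trap A δ) := by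
  refine HasCompactSupport.of_support_subset_isCompact (isCompact_Icc (a := -δ) (b := 1 + δ)) ?_
  intro x hx
  by_contra h
  apply hx
  rw [mem_Icc, not_and_or] at h
  rcases h with h | h
  · exact trap_left hδ (not_le.1 h).le
  · exact trap_right hδ (not_le.1 h).le

end trap

theorem core {K : ℝ → ℝ} {τ C M : ℝ} {u v : ℝ → ℝ → ℝ} (hK : Test K) (hn : ∀ x, 0 ≤ K x)
    (hτ : 0 < τ) (hτ1 : τ ≤ 1) (hC : 0 < C) (hkτ : (∫ y, K y) * τ ^ 2 ≤ 1 / 4)
    (hCτ : (360 * (∫ y, K y) + 4720 * C) * τ ^ 2 ≤ 1)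
    (hC2 : 8 * C ^ 2 * 1000 ^ 2 * τ ^ 2 ≤ 1) (hC3 : 8 * C ^ 3 * 1000 ^ 3 * τ ^ 2 ≤ 1 / 100)
    (S : Sol K (trap (1000 / τ ^ 2) ((1000 / τ ^ 2)⁻¹ ^ 2 / (3 * τ))) (τ ^ 2) M u v)
    (hgb : ∀ t ∈ Icc 0 (τ ^ 2), (∀ x, cv K (u t) x ≤ C * (1000 / τ ^ 2)) ∧
        ∀ x y, |x - y| ≤ 1 → |cv K (u t) x - cv K (u t) y| ≤ C * (1000 / τ ^ 2) * |x - y|) :
    False := by
  set A := 1000 / τ ^ 2 with hA
  have hA0 : 0 < A := by positivity
  have ha2 : A⁻¹ ^ 2 = τ ^ 4 / 1000000 := by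
    rw [hA]; field_simp; norm_num
  set δ := A⁻¹ ^ 2 / (3 * τ) with hδ
  have hb0 : 0 < A⁻¹ ^ 2 := by positivity
  have hδ0 : 0 < δ := by positivity
  set u0 := trap A δ with hu0
  have hu0m : Measurable u0 := by
    obtain ⟨L, hL⟩ := trap_lip A hδ0
    exact hL.continuous.measurable
  set k := ∫ y, K y with hk
  have hk0 : 0 ≤ k := integral_nonneg hn
  have hT : (0:ℝ) < τ ^ 2 := by positivity
  set T := τ ^ 2 with hTd
  -- potentials
  have hp : ∀ t : ℝ, ∃ W W' : ℝ → ℝ, t ∈ Icc 0 T → (∀ x, HasDerivAt W (W' x) x) ∧ Continuous W' ∧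
      (∀ x y, W' y - W' x = ∫ s in x..y, (v t s - 1 + absb u v t s)) ∧
      (∀ᵐ x, pot v t x = W x) ∧
      ∀ x y, IntervalIntegrable (fun s => v t s - 1 + absb u v t s) volume x y := by
    intro t
    by_cases ht : t ∈ Icc 0 T
    · obtain ⟨W, W', h⟩ := S.potential ht
      exact ⟨W, W', fun _ => h⟩
    · exact ⟨fun _ => 0, fun _ => 0, fun h => absurd h ht⟩
  choose W W' hWW using hp
  have hder := fun t ht => (hWW t ht).1
  have hWc' := fun t ht => (hWW t ht).2.1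
  have hdiff := fun t ht => (hWW t ht).2.2.1
  have hpae := fun t ht => (hWW t ht).2.2.2.1
  have hint := fun t ht => (hWW t ht).2.2.2.2
  have hWc : ∀ t ∈ Icc 0 T, Continuous (W t) := fun t ht =>
    (show Differentiable ℝ (W t) from fun x => (hder t ht x).differentiableAt).continuous
  have hpot0 : ∀ t, 0 ≤ t → ∀ x, 0 ≤ pot v t x := fun t ht x =>
    intervalIntegral.integral_nonneg ht fun s _ => (S.vb s x).1
  have hpotT : ∀ t ∈ Icc 0 T, ∀ x, pot v t x ≤ T := by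
    intro t ht x
    have h1 := bprim S.abs_v ht.1 x
    rw [one_mul] at h1
    exact ((le_abs_self _).trans h1).trans ht.2
  have hW0 : ∀ t ∈ Icc 0 T, ∀ x, 0 ≤ W t x := by
    intro t ht x
    have := le_of_ae (W := fun x => - W t x) (c := 0) (hWc t ht).neg isOpen_univ (by
      filter_upwards [hpae t ht] with x hx _
      have := hpot0 t ht.1 x
      linarith) x (by simp)
    linarith
  have hWT : ∀ t ∈ Icc 0 T, ∀ x, W t x ≤ T := by
    intro t ht x
    exact le_of_ae (hWc t ht) isOpen_univ (by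
      filter_upwards [hpae t ht] with x hx _
      have := hpotT t ht x
      linarith) x (by simp)
  have habs0 : ∀ t, 0 ≤ t → ∀ x, 0 ≤ absb u v t x := fun t ht x =>
    intervalIntegral.integral_nonneg ht fun s _ =>
      mul_nonneg (S.vb s x).1 (pow_nonneg (S.ub s x).1 3)
  have hslope : ∀ t ∈ Icc 0 T, ∀ x, |W' t x| ≤ 3 / 2 * τ := by
    intro t ht x
    have := slope_bound (T := T) (r := τ) hτ (hder t ht) (hdiff t ht) (hint t ht)
      (Eventually.of_forall fun s => by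
        have h1 := (S.vb t s).1
        have h2 := habs0 t ht.1 s
        linarith) (hW0 t ht) (hWT t ht) x
    have e : T / τ + τ / 2 = 3 / 2 * τ := by rw [hTd]; field_simp; norm_num
    rwa [e] at this
  have hWlip : ∀ t ∈ Icc 0 T, ∀ x y, |W t x - W t y| ≤ 3 / 2 * τ * |x - y| := by
    intro t ht x y
    have h3 := Convex.norm_image_sub_le_of_norm_hasDerivWithin_le (f := W t) (s := univ)
      (C := 3 / 2 * τ) (fun z _ => (hder t ht z).hasDerivWithinAt)
      (fun z _ => by rw [Real.norm_eq_abs]; exact hslope t ht z) convex_univ (mem_univ y)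
      (mem_univ x)
    rwa [Real.norm_eq_abs, Real.norm_eq_abs] at h3
  -- good points
  set Gd : Set ℝ := {x | ((∀ᵐ s ∂(volume.restrict (Icc 0 T)), u s x = ut K u0 u v s x) ∧
      ∀ q : ℚ, (q:ℝ) ∈ Icc 0 T → u q x = ut K u0 u v q x) ∧
      ∀ q : ℚ, (q:ℝ) ∈ Icc 0 T → pot v q x = W q x} with hGd
  have hGae : ∀ᵐ x, x ∈ Gd := by
    have h4 : ∀ᵐ x, ∀ q : ℚ, (q:ℝ) ∈ Icc 0 T → pot v q x = W q x := by
      rw [ae_all_iff]
      intro q
      by_cases hq : (q:ℝ) ∈ Icc 0 T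
      · filter_upwards [hpae q hq] with x hx _ using hx
      · exact Eventually.of_forall fun x h => absurd h hq
    filter_upwards [S.ae_good hK hu0m, h4] with x hx1 hx2 using ⟨hx1, hx2⟩
  have horb : ∀ x ∈ Gd, Orb T k (C * A) M (u0 x) (fun s => cv K (u s) x) (fun s => v s x)
      (fun s => ut K u0 u v s x) := fun x hx =>
    S.orb hK hn hT hu0m (fun t ht x => (hgb t ht).1 x) hx.1.1 hx.1.2
  have hplip : ∀ x ∈ Gd, ∀ y ∈ Gd, ∀ t ∈ Icc 0 T,
      |pot v t x - pot v t y| ≤ 3 / 2 * τ * |x - y| := by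
    intro x hx y hy
    have hc : ∀ x, Continuous (fun t => pot v t x) := fun x =>
      intervalIntegral.continuous_primitive (fun a b => iiSec S.mv S.abs_v x a b) 0
    exact le_of_rat (F := fun t => |pot v t x - pot v t y|) hT
      (((hc x).sub (hc y)).abs).continuousOn fun q hq => by
        rw [hx.2 q hq, hy.2 q hq]
        exact hWlip q hq x y
  have habsu : ∀ x ∈ Gd, ∀ t ∈ Icc 0 T, absb u v t x
      = ∫ s in (0:ℝ)..t, v s x * ut K u0 u v s x ^ 3 := fun x hx t ht => absb_eq ht hx.1.1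
  have hmid : ∀ x ∈ Ioo (0:ℝ) 1, u0 x = A := fun x hx => trap_mid hδ0 (Ioo_subset_Icc_self hx)
  have E : Env τ k C A M u0 (fun s x => cv K (u s) x) v (ut K u0 u v) Gd :=
    ⟨hτ, hτ1, hk0, hC, hA0, hkτ, hCτ, ha2, hGae, horb, fun t ht x y h => (hgb t ht).2 x y h,
      hplip, hmid⟩
  have hkT2 : k * T ≤ 1 / 2 := by linarith
  have hu00 : ∀ x, 0 ≤ u0 x := fun x => (trap_bounds hA0.le x).1
  -- potential on [0,1]
  have hW1 : ∀ t ∈ Icc 0 T, W t 1 ≤ 5 / 2 * A⁻¹ ^ 2 := by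
    intro t ht
    refine le_of_ae (O := Ioo 0 1) (hWc t ht) isOpen_Ioo ?_ 1 ?_
    · filter_upwards [hpae t ht, hGae] with x hx hxG hx01
      rw [← hx]
      have h1 := horb x hxG
      rw [hmid x hx01] at h1
      exact h1.vbound hk0 hkT2 hA0 ht
    · rw [closure_Ioo (by norm_num)]
      exact ⟨by norm_num, le_rfl⟩
  have hWx1 : ∀ t ∈ Icc 0 T, W t (1 + δ) ≤ 3 * A⁻¹ ^ 2 := by
    intro t ht
    have h1 := hW1 t ht
    have h2 := (abs_le.1 (hWlip t ht (1 + δ) 1)).2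
    rw [add_sub_cancel_left, abs_of_pos hδ0] at h2
    have h3 : 3 / 2 * τ * δ = 1 / 2 * A⁻¹ ^ 2 := by rw [hδ]; field_simp
    linarith
  -- flux
  have hCc : C * A * T = 1000 * C := by rw [hA]; field_simp
  have hbig : (2 * (C * A) * T) ^ 3 ≤ C * A := by
    have e1 : (2 * (C * A) * T) ^ 3 = 8 * C ^ 2 * 1000 ^ 2 * (1000 * C) := by
      rw [show 2 * (C * A) * T = 2 * (C * A * T) by ring, hCc]; ring
    have e2 : (C * A) * T = 1000 * C := hCc
    rw [e1]
    have h2 : 8 * C ^ 2 * 1000 ^ 2 * T ≤ 1 := hC2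
    calc 8 * C ^ 2 * 1000 ^ 2 * (1000 * C) = (8 * C ^ 2 * 1000 ^ 2 * T) * (C * A) := by
          rw [← e2]; ring
      _ ≤ 1 * (C * A) := mul_le_mul_of_nonneg_right h2 (by positivity)
      _ = C * A := one_mul _
  have hM0 := S.M0
  have hflux := flux (v := v) (W := W) (W' := W')
    (H := fun t s => v t s - 1 + absb u v t s) (τ := τ) (x1 := 1 + δ) (h := 3 * A⁻¹ ^ 2)
    (a0 := 1 / 100) hτ S.mv S.abs_v hint (fun t ht => hW0 t ht _) hWx1
    (fun t ht => taylor (hder t ht) (hWc' t ht) (hdiff t ht) (hint t ht) _ _)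
    (fun t ht => by
      filter_upwards [hGae] with x hx hx1
      have h1 := horb x hx
      rw [show u0 x = 0 from trap_right hδ0 hx1.1.le] at h1
      have h2 : absb u v t x ≤ 1 / 100 := by
        rw [habsu x hx t ht]
        have h3 : ∫ s in (0:ℝ)..t, v s x * ut K u0 u v s x ^ 3
            ≤ ∫ s in (0:ℝ)..t, (2 * (C * A) * T) ^ 3 := by
          have hm : Measurable (fun s => v s x * ut K u0 u v s x ^ 3) :=
            h1.mv.mul (h1.mU.pow_const 3)
          refine intervalIntegral.integral_mono_on ht.1 (ii_of_bdd (C := M ^ 3) ht.1 hm ?_)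
            intervalIntegrable_const fun s hs => ?_
          · intro s hs
            obtain ⟨a1, a2⟩ := h1.U0 s ⟨hs.1, hs.2.trans ht.2⟩
            obtain ⟨b1, b2⟩ := S.vb s x
            have a3 : ut K u0 u v s x ^ 3 ≤ M ^ 3 := pow_le_pow_left₀ a1 a2 3
            have a4 : 0 ≤ ut K u0 u v s x ^ 3 := pow_nonneg a1 3
            rw [abs_of_nonneg (mul_nonneg b1 a4)]
            nlinarith
          · have hs' : s ∈ Icc 0 T := ⟨hs.1, hs.2.trans ht.2⟩
            obtain ⟨a1, a2⟩ := h1.U0 s hs'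
            obtain ⟨b1, b2⟩ := S.vb s x
            have a5 := h1.small hk0 hT.le (by positivity) hM0 hbig hs'
            have a6 : ut K u0 u v s x ≤ 2 * (C * A) * T :=
              a5.trans (mul_le_mul_of_nonneg_left hs'.2 (by positivity))
            have a3 : ut K u0 u v s x ^ 3 ≤ (2 * (C * A) * T) ^ 3 := pow_le_pow_left₀ a1 a6 3
            have a4 : 0 ≤ ut K u0 u v s x ^ 3 := pow_nonneg a1 3
            nlinarith
        rw [intervalIntegral.integral_const, smul_eq_mul, sub_zero] at h3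
        have e1 : (2 * (C * A) * T) ^ 3 = 8 * C ^ 3 * 1000 ^ 3 := by
          rw [show 2 * (C * A) * T = 2 * (C * A * T) by ring, hCc]; ring
        rw [e1] at h3
        have h4 : t * (8 * C ^ 3 * 1000 ^ 3) ≤ T * (8 * C ^ 3 * 1000 ^ 3) :=
          mul_le_mul_of_nonneg_right ht.2 (by positivity)
        linarith
      linarith)
    (by
      filter_upwards [hpae T ⟨hT.le, le_rfl⟩] with x hx hx1
      have hTT : T ∈ Icc 0 T := ⟨hT.le, le_rfl⟩
      rw [hx]
      have h1 := hWx1 T hTT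
      have h2 := (abs_le.1 (hWlip T hTT x (1 + δ))).2
      rw [abs_of_pos (by linarith [hx1.1] : 0 < x - (1 + δ))] at h2
      linarith)
    (by
      rw [ha2]
      have h1 : τ ^ 4 ≤ τ ^ 2 := pow_le_pow_of_le_one hτ.le hτ1 (by norm_num)
      nlinarith)
  obtain ⟨t, ht, htflux⟩ := hflux
  -- contradiction at time t
  have hGae' : ∀ᵐ x, x ∈ Gd ∩ {x | pot v t x = W t x} := by
    filter_upwards [hGae, hpae t ht] with x h1 h2 using ⟨h1, h2⟩
  have E' : Env τ k C A M u0 (fun s x => cv K (u s) x) v (ut K u0 u v)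
      (Gd ∩ {x | pot v t x = W t x}) :=
    ⟨hτ, hτ1, hk0, hC, hA0, hkτ, hCτ, ha2, hGae', fun x hx => horb x hx.1,
      fun t ht x y h => (hgb t ht).2 x y h, fun x hx y hy => hplip x hx.1 y hy.1, hmid⟩
  refine E'.final (W := W t) (W' := W' t) (H := fun s => v t s - 1 + absb u v t s) ht
    (hder t ht) (hWc' t ht) (hdiff t ht) (hint t ht) (fun x hx => hx.2) ?_ (hW0 t ht)
    (hW1 t ht) ?_ htflux
  · intro x hx
    have h1 := (horb x hx.1).absorbed hk0 hkT2 (hu00 x) ht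
    rw [habsu x hx.1 t ht]
    have h2 := (S.vb t x).2
    linarith
  · intro x hx
    have e : u0 x = A * (1 - (x - 1) / δ) := trap_foot hδ0 hx
    set z := (x - 1) / δ with hz
    have hz0 : 0 < z := div_pos (by linarith [hx.1]) hδ0
    have hz1 : z < 1 := by rw [hz, div_lt_iff₀ hδ0]; linarith [hx.2]
    have hz2 : 0 < 1 - z := by linarith
    refine ⟨by rw [e]; positivity, ?_⟩
    have e2 : 3 * τ * (x - 1) = A⁻¹ ^ 2 * z := by
      have : x - 1 = z * δ := by rw [hz]; field_simp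
      rw [this, hδ]; field_simp
    rw [e2, e, mul_inv, mul_pow]
    have h3 : 1 + 2 * z ≤ (1 - z)⁻¹ ^ 2 := by
      rw [inv_pow, ← one_div, le_div_iff₀ (by positivity)]
      nlinarith [mul_pos hz0 hz0, mul_pos (mul_pos hz0 hz0) hz2]
    have h4 := mul_le_mul_of_nonneg_left h3 hb0.le
    linarith

theorem Sol.mono {K u0 : ℝ → ℝ} {T T' M : ℝ} {u v : ℝ → ℝ → ℝ} (S : Sol K u0 T M u v)
    (h : T' ≤ T) : Sol K u0 T' M u v :=
  ⟨S.mu, S.mv, S.ub, S.vb, fun t ht => S.equ t ⟨ht.1, ht.2.trans h⟩,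
    fun φ hφ t ht => S.eqv φ hφ t ⟨ht.1, ht.2.trans h⟩⟩

/-- For every kernel and every time there is a Lipschitz datum without bounded solution. -/
theorem no_sol {K : ℝ → ℝ} (hK : Test K) (hn : ∀ x, 0 ≤ K x) {T : ℝ} (hT : 0 < T) :
    ∃ u0 : ℝ → ℝ, (∃ L, LipschitzWith L u0) ∧ HasCompactSupport u0 ∧ (∀ x, 0 ≤ u0 x) ∧
      ∀ M u v, ¬ Sol K u0 T M u v := by
  obtain ⟨C, hC, hgain⟩ := gain_bounds hK hn
  set k := ∫ y, K y with hk
  have hk0 : 0 ≤ k := integral_nonneg hn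
  set X := 1 + 1 / T + 4 * k + (360 * k + 4720 * C) + 8 * C ^ 2 * 1000 ^ 2
    + 800 * C ^ 3 * 1000 ^ 3 with hX
  have hX1 : 1 ≤ X := by
    have : 0 ≤ 1 / T + 4 * k + (360 * k + 4720 * C) + 8 * C ^ 2 * 1000 ^ 2
      + 800 * C ^ 3 * 1000 ^ 3 := by positivity
    linarith
  have hX0 : 0 < X := by linarith
  set τ := 1 / X with hτd
  have hτ : 0 < τ := by positivity
  have hτ1 : τ ≤ 1 := by rw [hτd, div_le_one hX0]; exact hX1
  have hτX : τ * X = 1 := by rw [hτd]; field_simp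
  have hb : ∀ y, 0 ≤ y → y ≤ X → y * τ ^ 2 ≤ 1 := by
    intro y hy0 hy
    have h1 : y * τ ≤ 1 := by
      have := mul_le_mul_of_nonneg_right hy hτ.le
      linarith
    nlinarith
  have p1 : 0 ≤ 1 / T := by positivity
  have p2 : 0 ≤ 8 * C ^ 2 * 1000 ^ 2 := by positivity
  have p3 : 0 ≤ 800 * C ^ 3 * 1000 ^ 3 := by positivity
  have p4 : 0 ≤ 360 * k + 4720 * C := by positivity
  have hδ0 : 0 < (1000 / τ ^ 2)⁻¹ ^ 2 / (3 * τ) := by positivity
  refine ⟨trap (1000 / τ ^ 2) ((1000 / τ ^ 2)⁻¹ ^ 2 / (3 * τ)), trap_lip _ hδ0,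
    trap_supp _ hδ0, fun x => (trap_bounds (by positivity) x).1, ?_⟩
  intro M u v S
  have hTT : τ ^ 2 ≤ T := by
    have h1 := hb (1 / T) p1 (by linarith)
    rw [div_mul_eq_mul_div, one_mul, div_le_one hT] at h1
    exact h1
  have S' := S.mono hTT
  have hτ2 : τ ^ 2 ≤ 1 := pow_le_one₀ hτ.le hτ1
  have hkτ : k * τ ^ 2 ≤ 1 / 4 := by
    have := hb (4 * k) (by positivity) (by linarith)
    linarith
  have hA1 : 1 ≤ 1000 / τ ^ 2 := by
    rw [le_div_iff₀ (by positivity)]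
    linarith
  have hδ1 : (1000 / τ ^ 2)⁻¹ ^ 2 / (3 * τ) ≤ 1 := by
    rw [div_le_one (by positivity)]
    have e : (1000 / τ ^ 2)⁻¹ ^ 2 = τ ^ 4 / 1000000 := by field_simp; norm_num
    rw [e]
    have : τ ^ 4 ≤ τ := by
      calc τ ^ 4 ≤ τ ^ 1 := pow_le_pow_of_le_one hτ.le hτ1 (by norm_num)
        _ = τ := pow_one τ
    linarith
  have hg := hgain _ (τ ^ 2) M (1000 / τ ^ 2) u v S' (by positivity) hτ2 (by linarith) hA1
    (trap_lip _ hδ0).choose_spec.continuous (fun x => trap_bounds (by positivity) x)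
    (fun x hx => by
      rw [mem_Icc, not_and_or] at hx
      rcases hx with hx | hx
      · exact trap_left hδ0 (by linarith [not_le.1 hx])
      · exact trap_right hδ0 (by linarith [not_le.1 hx]))
  exact core hK hn hτ hτ1 hC hkτ (hb _ p4 (by linarith)) (hb _ p2 (by linarith))
    (by have := hb _ p3 (by linarith); linarith) S' hg

end Pool.Agent.H522R3.Nlr
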