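import Pool.Agent.H522R3.Nlr.Good

/-! Slopes, Taylor formula, the flux lemma and two singular integrals. -/

open MeasureTheory Set Filter Topology
open scoped ContDiff

namespace Pool.Agent.H522R3.Nlr

theorem slope_bound {W W' H : ℝ → ℝ} {T r : ℝ} (hr : 0 < r)
    (hW : ∀ x, HasDerivAt W (W' x) x) (hH : ∀ x y, W' y - W' x = ∫ s in x..y, H s)
    (hHi : ∀ x y, IntervalIntegrable H volume x y) (hH1 : ∀ᵐ s, -1 ≤ H s)
    (h0 : ∀ x, 0 ≤ W x) (h1 : ∀ x, W x ≤ T) (x : ℝ) : |W' x| ≤ T / r + r / 2 := by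
  have hmono : ∀ x y, x ≤ y → W' x - (y - x) ≤ W' y := by
    intro x y hxy
    have h2 : ∫ s in x..y, (-1:ℝ) ≤ ∫ s in x..y, H s := by
      refine intervalIntegral.integral_mono_ae hxy intervalIntegrable_const (hHi x y) ?_
      exact hH1
    rw [intervalIntegral.integral_const, smul_eq_mul, ← hH] at h2
    linarith
  set φ : ℝ → ℝ := fun s => W s - W' x * (s - x) + (s - x) ^ 2 / 2 with hφ
  have hd : ∀ s, HasDerivAt φ (W' s - W' x + (s - x)) s := by
    intro s
    have h3 : HasDerivAt (fun s => W' x * (s - x)) (W' x * 1) s :=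
      ((hasDerivAt_id s).sub_const x).const_mul (W' x)
    have h4 : HasDerivAt (fun s : ℝ => (s - x) ^ 2 / 2)
        (((2:ℕ):ℝ) * (s - x) ^ (2 - 1) * 1 / 2) s :=
      (((hasDerivAt_id s).sub_const x).pow 2).div_const 2
    have h5 := ((hW s).sub h3).add h4
    refine h5.congr_deriv ?_
    norm_num
  have hdiff : Differentiable ℝ φ := fun s => (hd s).differentiableAt
  have hup : φ x ≤ φ (x + r) := by
    have : MonotoneOn φ (Icc x (x + r)) := by
      refine monotoneOn_of_deriv_nonneg (convex_Icc _ _) hdiff.continuous.continuousOn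
        hdiff.differentiableOn fun s hs => ?_
      rw [interior_Icc] at hs
      rw [(hd s).deriv]
      have := hmono x s hs.1.le
      linarith
    exact this (left_mem_Icc.2 (by linarith)) (right_mem_Icc.2 (by linarith)) (by linarith)
  have hdn : φ x ≤ φ (x - r) := by
    have : AntitoneOn φ (Icc (x - r) x) := by
      refine antitoneOn_of_deriv_nonpos (convex_Icc _ _) hdiff.continuous.continuousOn
        hdiff.differentiableOn fun s hs => ?_
      rw [interior_Icc] at hs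
      rw [(hd s).deriv]
      have := hmono s x hs.2.le
      linarith
    exact this (left_mem_Icc.2 (by linarith)) (right_mem_Icc.2 (by linarith)) (by linarith)
  simp only [hφ] at hup hdn
  have h6 := h0 x
  have h7 := h1 (x + r)
  have h8 := h1 (x - r)
  have e1 : T / r + r / 2 = (T + r ^ 2 / 2) / r := by field_simp
  rw [e1, le_div_iff₀ hr]
  rcases abs_cases (W' x) with ⟨h9, _⟩ | ⟨h9, _⟩ <;> rw [h9] <;> nlinarith

theorem taylor {W W' H : ℝ → ℝ} (hW : ∀ x, HasDerivAt W (W' x) x) (hWc : Continuous W')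
    (hH : ∀ x y, W' y - W' x = ∫ s in x..y, H s)
    (hHi : ∀ x y, IntervalIntegrable H volume x y) (a b : ℝ) :
    W b = W a + (b - a) * W' a + ∫ s in a..b, (b - s) * H s := by
  have h1 : ∫ s in a..b, W' s = W b - W a :=
    intervalIntegral.integral_eq_sub_of_hasDerivAt (fun x _ => hW x)
      (hWc.intervalIntegrable a b)
  have hW'eq : W' = fun x => W' a + ∫ s in a..x, H s := by
    funext x
    have := hH a x
    linarith
  have hac : AbsolutelyContinuousOnInterval W' a b := by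
    rw [hW'eq]
    have h3 := (hHi a b).absolutelyContinuousOnInterval_intervalIntegral (c := a) (by simp)
    have h2 : AbsolutelyContinuousOnInterval (fun _ : ℝ => W' a) a b :=
      (LipschitzWith.const _).lipschitzOnWith.absolutelyContinuousOnInterval
    exact h2.add h3
  have hg : AbsolutelyContinuousOnInterval (fun s : ℝ => s - b) a b :=
    (contDiff_id.sub contDiff_const).contDiffOn.absolutelyContinuousOnInterval
  have h4 := AbsolutelyContinuousOnInterval.integral_mul_deriv_eq_deriv_mul hac hg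
  have h5 : ∀ s, deriv (fun s : ℝ => s - b) s = 1 := fun s => by simp
  simp only [h5, mul_one, sub_self, mul_zero, zero_sub] at h4
  rw [h1] at h4
  have h6 : ∫ s in a..b, deriv W' s * (s - b) = ∫ s in a..b, - ((b - s) * H s) := by
    refine intervalIntegral.integral_congr_ae ?_
    filter_upwards [(hHi a b).ae_hasDerivAt_integral] with s hs hs2
    have h7 := hs (uIoc_subset_uIcc hs2) a (by simp)
    have h8 : HasDerivAt W' (H s) s := by
      rw [hW'eq]
      exact h7.const_add _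
    rw [h8.deriv]
    ring
  rw [h6, intervalIntegral.integral_neg] at h4
  linarith

/-- Fubini over a strip for a weight `x₁ + τ - s`. -/
theorem flux {v W W' H : ℝ → ℝ → ℝ} {τ x1 h a0 : ℝ} (hτ : 0 < τ)
    (mv : Measurable (Function.uncurry v)) (hv : ∀ s x, |v s x| ≤ 1)
    (hHi : ∀ t ∈ Icc 0 (τ ^ 2), ∀ x y, IntervalIntegrable (H t) volume x y)
    (hW0 : ∀ t ∈ Icc 0 (τ ^ 2), 0 ≤ W t (x1 + τ))
    (hW1 : ∀ t ∈ Icc 0 (τ ^ 2), W t x1 ≤ h)
    (htay : ∀ t ∈ Icc 0 (τ ^ 2), W t (x1 + τ) = W t x1 + (x1 + τ - x1) * W' t x1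
      + ∫ s in x1..(x1 + τ), (x1 + τ - s) * H t s)
    (hH : ∀ t ∈ Icc 0 (τ ^ 2), ∀ᵐ s, s ∈ Ioo x1 (x1 + τ) → H t s ≤ v t s - 1 + a0)
    (hV : ∀ᵐ x, x ∈ Ioo x1 (x1 + τ) → pot v (τ ^ 2) x ≤ h + 3 / 2 * τ * (x - x1))
    (hnum : 3 / 2 * h < τ ^ 2 * (1 / 20 - a0 / 2)) :
    ∃ t ∈ Icc 0 (τ ^ 2), τ / 5 ≤ W' t x1 := by
  by_contra hcon
  push Not at hcon
  set w : ℝ → ℝ := (Ioc x1 (x1 + τ)).indicator (fun s => x1 + τ - s) with hw
  have hwm : Measurable w := (measurable_const.sub measurable_id).indicator measurableSet_Ioc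
  have hwint : Integrable w := by
    rw [integrable_indicator_iff measurableSet_Ioc]
    have : Continuous (fun s : ℝ => x1 + τ - s) := by fun_prop
    exact (this.continuousOn.integrableOn_Icc (a := x1) (b := x1 + τ)).mono_set Ioc_subset_Icc_self
  have hle : x1 ≤ x1 + τ := by linarith
  have htoI : ∀ f : ℝ → ℝ, ∫ x, f x * w x = ∫ s in x1..(x1 + τ), (x1 + τ - s) * f s := by
    intro f
    rw [intervalIntegral.integral_of_le hle, ← integral_indicator measurableSet_Ioc]
    refine integral_congr_ae (Eventually.of_forall fun x => ?_)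
    simp only [hw, indicator]
    split_ifs <;> ring
  have hlow : ∀ t ∈ Icc 0 (τ ^ 2), (1 - a0) * τ ^ 2 / 2 - h - τ ^ 2 / 5 ≤ ∫ x, v t x * w x := by
    intro t ht
    have h1 := htay t ht
    have h2 := hW0 t ht
    have h3 := hW1 t ht
    have h4 := hcon t ht
    have iv : IntervalIntegrable (v t) volume x1 (x1 + τ) :=
      ii_of_bdd hle (sec mv t) (fun x _ => hv t x)
    have hcw : Continuous (fun s : ℝ => x1 + τ - s) := by fun_prop
    have i1 : IntervalIntegrable (fun s => (x1 + τ - s) * H t s) volume x1 (x1 + τ) :=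
      (hHi t ht _ _).continuousOn_mul hcw.continuousOn
    have i2 : IntervalIntegrable (fun s => (x1 + τ - s) * (v t s)) volume x1 (x1 + τ) :=
      iv.continuousOn_mul hcw.continuousOn
    have i3 : IntervalIntegrable (fun s => (x1 + τ - s) * (1 - a0)) volume x1 (x1 + τ) :=
      (hcw.mul continuous_const).intervalIntegrable _ _
    have h5 : ∫ s in x1..(x1 + τ), (x1 + τ - s) * H t s
        ≤ ∫ s in x1..(x1 + τ), ((x1 + τ - s) * v t s - (x1 + τ - s) * (1 - a0)) := by
      refine intervalIntegral.integral_mono_ae_restrict hle i1 (i2.sub i3) ?_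
      have hne : ∀ᵐ s : ℝ, s ≠ x1 := by simp [ae_iff, measure_singleton]
      have hne2 : ∀ᵐ s : ℝ, s ≠ x1 + τ := by simp [ae_iff, measure_singleton]
      filter_upwards [ae_restrict_of_ae (hH t ht), ae_restrict_of_ae hne, ae_restrict_of_ae hne2,
        self_mem_ae_restrict measurableSet_Icc] with s hs1 hs2 hs3 hs4
      have h6 := hs1 ⟨lt_of_le_of_ne hs4.1 (Ne.symm hs2), lt_of_le_of_ne hs4.2 hs3⟩
      have h7 : 0 ≤ x1 + τ - s := by linarith [hs4.2]
      have h8 := mul_le_mul_of_nonneg_left h6 h7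
      linarith
    rw [intervalIntegral.integral_sub i2 i3] at h5
    have h9 : ∫ s in x1..(x1 + τ), (x1 + τ - s) * (1 - a0) = (1 - a0) * τ ^ 2 / 2 := by
      rw [intervalIntegral.integral_mul_const,
        intervalIntegral.integral_comp_sub_left (fun x => x) (x1 + τ)]
      rw [integral_id]
      ring
    rw [h9] at h5
    rw [htoI (v t)]
    have h10 : (x1 + τ - x1) * W' t x1 ≤ τ * (τ / 5) := by
      rw [add_sub_cancel_left]
      exact mul_le_mul_of_nonneg_left h4.le hτ.le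
    nlinarith
  have hT0 : (0:ℝ) ≤ τ ^ 2 := by positivity
  have hF := fub mv hv hwint hwm (τ ^ 2)
  have hJ : ∫ s in (0:ℝ)..(τ ^ 2), ((1 - a0) * τ ^ 2 / 2 - h - τ ^ 2 / 5)
      ≤ ∫ s in (0:ℝ)..(τ ^ 2), ∫ x, v s x * w x :=
    intervalIntegral.integral_mono_on hT0 intervalIntegrable_const
      (tInt mv hv hwint hwm _ _) fun t ht => hlow t ht
  rw [intervalIntegral.integral_const, smul_eq_mul, sub_zero, ← hF,
    htoI (fun x => ∫ s in (0:ℝ)..(τ ^ 2), v s x)] at hJ
  have hc2 : Continuous (fun s : ℝ => (x1 + τ - s) * (h + 3 / 2 * τ * (s - x1))) := by fun_prop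
  have hup : ∫ s in x1..(x1 + τ), (x1 + τ - s) * (∫ r in (0:ℝ)..(τ ^ 2), v r s)
      ≤ ∫ s in x1..(x1 + τ), (x1 + τ - s) * (h + 3 / 2 * τ * (s - x1)) := by
    have i4 : IntervalIntegrable (fun s => (x1 + τ - s) * (∫ r in (0:ℝ)..(τ ^ 2), v r s)) volume
        x1 (x1 + τ) := by
      have hcw : Continuous (fun s : ℝ => x1 + τ - s) := by fun_prop
      refine IntervalIntegrable.continuousOn_mul ?_ hcw.continuousOn
      exact ii_of_bdd (C := 1 * τ ^ 2) hle (mprim mv hT0) (fun x _ => bprim hv hT0 x)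
    refine intervalIntegral.integral_mono_ae_restrict hle i4 (hc2.intervalIntegrable _ _) ?_
    have hne : ∀ᵐ s : ℝ, s ≠ x1 := by simp [ae_iff, measure_singleton]
    have hne2 : ∀ᵐ s : ℝ, s ≠ x1 + τ := by simp [ae_iff, measure_singleton]
    filter_upwards [ae_restrict_of_ae hV, ae_restrict_of_ae hne, ae_restrict_of_ae hne2,
      self_mem_ae_restrict measurableSet_Icc] with s hs1 hs2 hs3 hs4
    have h6 := hs1 ⟨lt_of_le_of_ne hs4.1 (Ne.symm hs2), lt_of_le_of_ne hs4.2 hs3⟩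
    exact mul_le_mul_of_nonneg_left h6 (by linarith [hs4.2])
  have hpoly : ∫ s in x1..(x1 + τ), (x1 + τ - s) * (h + 3 / 2 * τ * (s - x1))
      = h * τ ^ 2 / 2 + τ ^ 4 / 4 := by
    have hd : ∀ s, HasDerivAt (fun s : ℝ => h * (τ * (s - x1) - (s - x1) ^ 2 / 2)
        + 3 / 2 * τ * (τ * (s - x1) ^ 2 / 2 - (s - x1) ^ 3 / 3))
        ((x1 + τ - s) * (h + 3 / 2 * τ * (s - x1))) s := by
      intro s
      have h0 : HasDerivAt (fun s : ℝ => s - x1) 1 s := (hasDerivAt_id s).sub_const x1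
      have h1 := ((h0.const_mul τ).sub ((h0.pow 2).div_const 2)).const_mul h
      have h2 := ((((h0.pow 2).const_mul τ).div_const 2).sub ((h0.pow 3).div_const 3)).const_mul
        (3 / 2 * τ)
      refine (h1.add h2).congr_deriv ?_
      norm_num
      ring
    rw [intervalIntegral.integral_eq_sub_of_hasDerivAt (fun s _ => hd s)
      (hc2.intervalIntegrable _ _)]
    ring
  rw [hpoly] at hup
  have h11 : 0 < τ ^ 2 := by positivity
  have h12 : τ ^ 2 * ((1 - a0) * τ ^ 2 / 2 - h - τ ^ 2 / 5) ≤ h * τ ^ 2 / 2 + τ ^ 4 / 4 :=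
    hJ.trans hup
  nlinarith

theorem int_inv_sqrt {L : ℝ} :
    ∫ s in (0:ℝ)..L, s ^ (-(1/2) : ℝ) = 2 * √L := by
  rw [integral_rpow (Or.inl (by norm_num))]
  rw [show (-(1/2) + 1 : ℝ) = 1 / 2 by norm_num, Real.zero_rpow (by norm_num),
    ← Real.sqrt_eq_rpow]
  ring

theorem sing_left {H : ℝ → ℝ} {a b c : ℝ} (hab : a ≤ b)
    (hHi : IntervalIntegrable H volume a b)
    (hH : ∀ᵐ s, s ∈ Ioo a b → H s ≤ c * (s - a) ^ (-(1/2) : ℝ)) :
    ∫ s in a..b, H s ≤ 2 * c * √(b - a) := by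
  have i1 : IntervalIntegrable (fun s : ℝ => (s - a) ^ (-(1/2) : ℝ)) volume a b := by
    have h1 : IntervalIntegrable (fun s : ℝ => s ^ (-(1/2) : ℝ)) volume (a - a) (b - a) :=
      intervalIntegral.intervalIntegrable_rpow' (by norm_num)
    have h2 := h1.comp_sub_right a
    simpa using h2
  have h3 : ∫ s in a..b, H s ≤ ∫ s in a..b, c * (s - a) ^ (-(1/2) : ℝ) := by
    refine intervalIntegral.integral_mono_ae_restrict hab hHi (i1.const_mul c) ?_
    have hne : ∀ᵐ s : ℝ, s ≠ a := by simp [ae_iff, measure_singleton]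
    have hne2 : ∀ᵐ s : ℝ, s ≠ b := by simp [ae_iff, measure_singleton]
    filter_upwards [ae_restrict_of_ae hH, ae_restrict_of_ae hne, ae_restrict_of_ae hne2,
      self_mem_ae_restrict measurableSet_Icc] with s hs1 hs2 hs3 hs4
    exact hs1 ⟨lt_of_le_of_ne hs4.1 (Ne.symm hs2), lt_of_le_of_ne hs4.2 hs3⟩
  rw [intervalIntegral.integral_const_mul,
    intervalIntegral.integral_comp_sub_right (fun x => x ^ (-(1/2) : ℝ)) a, sub_self,
    int_inv_sqrt] at h3
  linarith

theorem sing_right {H : ℝ → ℝ} {a b c : ℝ} (hab : a ≤ b)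
    (hHi : IntervalIntegrable H volume a b)
    (hH : ∀ᵐ s, s ∈ Ioo a b → H s ≤ c * (b - s) ^ (-(1/2) : ℝ)) :
    ∫ s in a..b, H s ≤ 2 * c * √(b - a) := by
  have i1 : IntervalIntegrable (fun s : ℝ => (b - s) ^ (-(1/2) : ℝ)) volume a b := by
    have h1 : IntervalIntegrable (fun s : ℝ => s ^ (-(1/2) : ℝ)) volume (b - a) (b - b) :=
      intervalIntegral.intervalIntegrable_rpow' (by norm_num)
    have h2 := h1.comp_sub_left b
    simpa using h2
  have h3 : ∫ s in a..b, H s ≤ ∫ s in a..b, c * (b - s) ^ (-(1/2) : ℝ) := by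
    refine intervalIntegral.integral_mono_ae_restrict hab hHi (i1.const_mul c) ?_
    have hne : ∀ᵐ s : ℝ, s ≠ a := by simp [ae_iff, measure_singleton]
    have hne2 : ∀ᵐ s : ℝ, s ≠ b := by simp [ae_iff, measure_singleton]
    filter_upwards [ae_restrict_of_ae hH, ae_restrict_of_ae hne, ae_restrict_of_ae hne2,
      self_mem_ae_restrict measurableSet_Icc] with s hs1 hs2 hs3 hs4
    exact hs1 ⟨lt_of_le_of_ne hs4.1 (Ne.symm hs2), lt_of_le_of_ne hs4.2 hs3⟩
  rw [intervalIntegral.integral_const_mul,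
    intervalIntegral.integral_comp_sub_left (fun x => x ^ (-(1/2) : ℝ)) b, sub_self,
    int_inv_sqrt] at h3
  linarith

/-- From a lower bound on `U⁻² / 2` to a singular upper bound on `2 U`. -/
theorem two_u_le {U q D z : ℝ} (hU : 0 < U) (hD : 0 ≤ D) (hz : 0 < z) (hq : 0 < q)
    (hDq : D ^ 2 * (2 * q) = 1) (h : q * z ≤ U⁻¹ ^ 2 / 2) :
    2 * U ≤ 2 * D * z ^ (-(1/2) : ℝ) := by
  rw [Real.rpow_neg hz.le, ← Real.sqrt_eq_rpow, mul_assoc]
  refine mul_le_mul_of_nonneg_left ?_ (by norm_num)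
  rw [← div_eq_mul_inv, le_div_iff₀ (Real.sqrt_pos.2 hz)]
  refine le_of_sq_le_sq ?_ hD
  rw [mul_pow, Real.sq_sqrt hz.le]
  have h1 : U ^ 2 * U⁻¹ ^ 2 = 1 := by
    rw [← mul_pow, mul_inv_cancel₀ hU.ne', one_pow]
  have h2 : U ^ 2 * (2 * (q * z)) ≤ 1 := by
    have : U ^ 2 * (2 * (q * z)) ≤ U ^ 2 * U⁻¹ ^ 2 :=
      mul_le_mul_of_nonneg_left (by linarith) (by positivity)
    linarith
  have h3 : U ^ 2 * z * (2 * q) ≤ D ^ 2 * (2 * q) := by rw [hDq]; linarith
  exact le_of_mul_le_mul_right h3 (by positivity)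

end Pool.Agent.H522R3.Nlr
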