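import Pool.Agent.H522R3.Nlr.Meas

/-! Weak solutions: kernel bounds, potential, good points. -/

open MeasureTheory Set Filter Topology
open scoped ContDiff

namespace Pool.Agent.H522R3.Nlr

theorem lint_of_bdd {f : ℝ → ℝ} {C : ℝ} (hf : Measurable f) (hC : ∀ x, |f x| ≤ C) :
    LocallyIntegrable f := by
  refine (locallyIntegrable_const C).mono hf.aestronglyMeasurable (Eventually.of_forall fun x => ?_)
  rw [Real.norm_eq_abs, Real.norm_eq_abs]
  exact (hC x).trans (le_abs_self C)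

theorem le_of_ae {W : ℝ → ℝ} {c : ℝ} (hW : Continuous W) {O : Set ℝ} (hO : IsOpen O)
    (h : ∀ᵐ x, x ∈ O → W x ≤ c) : ∀ x ∈ closure O, W x ≤ c := by
  have h1 : IsOpen (O ∩ {x | c < W x}) := hO.inter (isOpen_lt continuous_const hW)
  have h2 : volume (O ∩ {x | c < W x}) = 0 := by
    rw [ae_iff] at h
    convert h using 2
    ext x
    simp
  have h3 := h1.eq_empty_of_measure_zero h2
  have h4 : O ⊆ {x | W x ≤ c} := by
    intro x hx
    by_contra h5
    have h6 : c < W x := by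
      by_contra h7
      exact h5 (not_lt.1 h7)
    have : x ∈ O ∩ {x | c < W x} := ⟨hx, h6⟩
    rw [h3] at this
    exact this
  exact closure_minimal h4 (isClosed_le hW continuous_const)

theorem le_of_rat {F : ℝ → ℝ} {T c : ℝ} (hT : 0 < T) (hF : ContinuousOn F (Icc 0 T))
    (h : ∀ q : ℚ, (q:ℝ) ∈ Icc 0 T → F q ≤ c) : ∀ t ∈ Icc 0 T, F t ≤ c := by
  have hcl : IsClosed (Icc 0 T ∩ F ⁻¹' Iic c) :=
    hF.preimage_isClosed_of_isClosed isClosed_Icc isClosed_Iic
  have h1 : Ioo 0 T ⊆ closure (Ioo 0 T ∩ range ((↑) : ℚ → ℝ)) :=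
    Rat.denseRange_cast.open_subset_closure_inter isOpen_Ioo
  have h2 : Ioo 0 T ∩ range ((↑) : ℚ → ℝ) ⊆ Icc 0 T ∩ F ⁻¹' Iic c := by
    rintro _ ⟨hx, q, rfl⟩
    exact ⟨Ioo_subset_Icc_self hx, h q (Ioo_subset_Icc_self hx)⟩
  have h3 : closure (Ioo 0 T) ⊆ Icc 0 T ∩ F ⁻¹' Iic c :=
    closure_minimal (h1.trans (closure_minimal h2 hcl)) hcl
  rw [closure_Ioo hT.ne] at h3
  exact fun t ht => (h3 ht).2

/-- Plateau bump. -/
theorem exists_plateau (R : ℝ) (hR : 0 < R) : ∃ χ : ℝ → ℝ, Test χ ∧ (∀ x, 0 ≤ χ x) ∧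
    (∀ x, χ x ≤ 1) ∧ ∀ x, |x| ≤ R → χ x = 1 := by
  let b : ContDiffBump (0:ℝ) := ⟨R, R + 1, hR, by linarith⟩
  refine ⟨b, ⟨b.contDiff, b.hasCompactSupport⟩, fun x => b.nonneg, fun x => b.le_one, ?_⟩
  intro x hx
  refine b.one_of_mem_closedBall ?_
  rwa [mem_closedBall_zero_iff, Real.norm_eq_abs]

variable {K : ℝ → ℝ}

/-- Bounds of the nonlocal gain term. -/
theorem gain_bounds (hK : Test K) (hn : ∀ x, 0 ≤ K x) : ∃ C : ℝ, 0 < C ∧
    ∀ (u0 : ℝ → ℝ) (T M A : ℝ) (u v : ℝ → ℝ → ℝ), Sol K u0 T M u v → 0 ≤ T → T ≤ 1 →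
      (∫ y, K y) * T ≤ 1 / 2 → 1 ≤ A → Continuous u0 → (∀ x, 0 ≤ u0 x ∧ u0 x ≤ A) →
      (∀ x, x ∉ Icc (-1:ℝ) 2 → u0 x = 0) →
      ∀ t ∈ Icc 0 T, (∀ x, cv K (u t) x ≤ C * A) ∧
        ∀ x y, |x - y| ≤ 1 → |cv K (u t) x - cv K (u t) y| ≤ C * A * |x - y| := by
  obtain ⟨R, hR0, hR⟩ := hK.bound
  obtain ⟨χ, hχ, hχ0, hχ1, hχR⟩ := exists_plateau (R + 1) (by linarith)
  obtain ⟨B0, hB0⟩ := hK.2.exists_bound_of_continuous hK.1.continuous
  obtain ⟨B1, hB1⟩ := hK.deriv.2.exists_bound_of_continuous hK.deriv.1.continuous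
  have hB00 : 0 ≤ B0 := (norm_nonneg _).trans (hB0 0)
  have hB10 : 0 ≤ B1 := (norm_nonneg _).trans (hB1 0)
  set D := (∫ x, χ x) + ∫ x, |deriv (deriv χ) x| with hD
  have hD0 : 0 ≤ D := add_nonneg (integral_nonneg hχ0) (integral_nonneg fun x => abs_nonneg _)
  refine ⟨(B0 + B1 + 1) * (2 * (3 + D)), by positivity, ?_⟩
  intro u0 T M A u v S hT hT1 hkT hA hu0c hu0 hu0s t ht
  have hmass : ∀ a, mass χ u t a ≤ 2 * (3 + D) * A := by
    intro a
    have h1 : ∀ a, ∫ x, u0 x * χ (x - a) ≤ 3 * A := by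
      intro a
      have h2 : ∫ x, u0 x * χ (x - a) ≤ ∫ x, (Icc (-1:ℝ) 2).indicator (fun _ => A) x := by
        refine integral_mono ((hχ.shift a).intMul hu0c.locallyIntegrable) ?_ fun x => ?_
        · exact (integrable_indicator_iff measurableSet_Icc).2 (by simp [integrableOn_const_iff])
        · by_cases hx : x ∈ Icc (-1:ℝ) 2
          · rw [indicator_of_mem hx]
            have := hu0 x
            have h3 := hχ0 (x - a)
            have h4 := hχ1 (x - a)
            nlinarith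
          · rw [indicator_of_notMem hx]
            simp [hu0s x hx]
      rw [integral_indicator measurableSet_Icc] at h2
      simp only [integral_const, MeasurableSet.univ, measureReal_restrict_apply, univ_inter,
        Real.volume_real_Icc, smul_eq_mul] at h2
      norm_num at h2
      linarith
    have h5 := S.mass_bound hK hn hT hT1 hkT hχ hχ0 hu0c h1 t ht a
    have h6 : D ≤ D * A := by nlinarith
    have h7 : 2 * (3 * A + (∫ x, χ x) + ∫ x, |deriv (deriv χ) x|) = 2 * (3 * A + D) := by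
      rw [hD]; ring
    rw [h7] at h5
    linarith
  have hui : ∀ a, Integrable (fun w => u t w * χ (w - a)) := fun a =>
    iInt S.mu S.abs_u (hχ.shift a).int t
  have hflip : ∀ x, Integrable (fun w => u t w * K (x - w)) := fun x =>
    iInt S.mu S.abs_u (hK.flip x).int t
  have hm0 : ∀ a, 0 ≤ mass χ u t a := fun a =>
    integral_nonneg fun x => mul_nonneg (S.ub t x).1 (hχ0 _)
  constructor
  · intro x
    have h1 : cv K (u t) x ≤ B0 * mass χ u t x := by
      rw [cv_eq, mass, ← integral_const_mul]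
      refine integral_mono (hflip x) ((hui x).const_mul B0) fun w => ?_
      simp only
      have hu := (S.ub t w).1
      by_cases hw : R ≤ |x - w|
      · rw [hR _ hw, mul_zero]
        exact mul_nonneg hB00 (mul_nonneg hu (hχ0 _))
      · rw [hχR (w - x) (by rw [abs_sub_comm]; linarith), mul_one, mul_comm]
        exact mul_le_mul_of_nonneg_right ((le_abs_self _).trans (hB0 _)) hu
    have h2 := hmass x
    have h3 : B0 * mass χ u t x ≤ (B0 + B1 + 1) * (2 * (3 + D) * A) :=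
      mul_le_mul (by linarith) h2 (hm0 x) (by positivity)
    calc cv K (u t) x ≤ (B0 + B1 + 1) * (2 * (3 + D) * A) := h1.trans h3
      _ = _ := by ring
  · intro x y hxy
    have h1 : |cv K (u t) x - cv K (u t) y| ≤ B1 * |x - y| * mass χ u t x := by
      rw [cv_eq, cv_eq, ← integral_sub (hflip x) (hflip y), mass, ← integral_const_mul,
        ← Real.norm_eq_abs]
      refine norm_integral_le_of_norm_le ((hui x).const_mul _) (Eventually.of_forall fun w => ?_)
      have hu := (S.ub t w).1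
      rw [← mul_sub, norm_mul, Real.norm_eq_abs, abs_of_nonneg hu]
      by_cases hw : R + 1 ≤ |x - w|
      · have h2 : R ≤ |y - w| := by
          have := abs_sub_abs_le_abs_sub (x - w) (y - w)
          rw [show x - w - (y - w) = x - y by ring] at this
          linarith
        rw [hR _ (by linarith), hR _ h2, sub_zero, norm_zero, mul_zero]
        have := hχ0 (w - x)
        positivity
      · rw [hχR (w - x) (by rw [abs_sub_comm]; linarith), mul_one, mul_comm]
        refine mul_le_mul_of_nonneg_right ?_ hu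
        have h3 := Convex.norm_image_sub_le_of_norm_deriv_le (f := K) (s := univ) (C := B1)
          (fun z _ => (hK.1.differentiable (by simp)) z) (fun z _ => hB1 z) convex_univ
          (mem_univ (y - w)) (mem_univ (x - w))
        rw [show x - w - (y - w) = x - y by ring, Real.norm_eq_abs (x - y)] at h3
        exact h3
    have h2 := hmass x
    have h3 : B1 * |x - y| * mass χ u t x ≤ ((B0 + B1 + 1) * |x - y|) * (2 * (3 + D) * A) := by
      refine mul_le_mul ?_ h2 (hm0 x) (by positivity)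
      exact mul_le_mul_of_nonneg_right (by linarith) (abs_nonneg _)
    calc |cv K (u t) x - cv K (u t) y| ≤ ((B0 + B1 + 1) * |x - y|) * (2 * (3 + D) * A) :=
        h1.trans h3
      _ = _ := by ring

section sol

variable {u0 : ℝ → ℝ} {T M : ℝ} {u v : ℝ → ℝ → ℝ}

/-- `∫₀ᵗ v`. -/
noncomputable def pot (v : ℝ → ℝ → ℝ) (t x : ℝ) : ℝ := ∫ s in (0:ℝ)..t, v s x

/-- `∫₀ᵗ v u³`. -/
noncomputable def absb (u v : ℝ → ℝ → ℝ) (t x : ℝ) : ℝ := ∫ s in (0:ℝ)..t, v s x * u s x ^ 3

theorem mprim {h : ℝ → ℝ → ℝ} (mh : Measurable (Function.uncurry h)) {t : ℝ} (ht : 0 ≤ t) :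
    Measurable (fun x => ∫ s in (0:ℝ)..t, h s x) := by
  have h3 := sec (mPrim mh) t
  have h4 : (fun x => ∫ s in (0:ℝ)..t, h s x) = fun x => ∫ s in Ioc 0 t, h s x := by
    funext x; rw [intervalIntegral.integral_of_le ht]
  rw [h4]; exact h3

theorem bprim {h : ℝ → ℝ → ℝ} {C : ℝ} (hC : ∀ s x, |h s x| ≤ C) {t : ℝ} (ht : 0 ≤ t) (x : ℝ) :
    |∫ s in (0:ℝ)..t, h s x| ≤ C * t := by
  have := intervalIntegral.norm_integral_le_of_norm_le_const (a := 0) (b := t)
    (f := fun s => h s x) (C := C) fun s _ => by rw [Real.norm_eq_abs]; exact hC s x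
  rwa [Real.norm_eq_abs, sub_zero, abs_of_nonneg ht] at this

theorem Sol.potential (S : Sol K u0 T M u v) {t : ℝ} (ht : t ∈ Icc 0 T) :
    ∃ W W' : ℝ → ℝ, (∀ x, HasDerivAt W (W' x) x) ∧ Continuous W' ∧
      (∀ x y, W' y - W' x = ∫ s in x..y, (v t s - 1 + absb u v t s)) ∧
      (∀ᵐ x, pot v t x = W x) ∧
      ∀ x y, IntervalIntegrable (fun s => v t s - 1 + absb u v t s) volume x y := by
  have hV : LocallyIntegrable (pot v t) :=
    lint_of_bdd (C := 1 * t) (mprim S.mv ht.1) (bprim S.abs_v ht.1)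
  have hZm : Measurable (absb u v t) := mprim S.mvu ht.1
  have hZb : ∀ x, |absb u v t x| ≤ M ^ 3 * t := bprim S.abs_vu ht.1
  have hHm : Measurable (fun x => v t x - 1 + absb u v t x) :=
    ((sec S.mv t).sub measurable_const).add hZm
  have hH : LocallyIntegrable (fun x => v t x - 1 + absb u v t x) := by
    refine lint_of_bdd (C := 2 + M ^ 3 * t) hHm fun x => ?_
    have h1 := hZb x
    have h2 := S.vb t x
    have h3 := abs_le.1 h1
    rw [abs_le]
    constructor <;> linarith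
  obtain ⟨b, c, hbc⟩ := rep hV hH (by
    intro φ hφ
    have e1 : ∫ x, pot v t x * deriv (deriv φ) x
        = ∫ s in (0:ℝ)..t, ∫ x, v s x * deriv (deriv φ) x :=
      fub S.mv S.abs_v hφ.deriv.deriv.int hφ.deriv.deriv.1.continuous.measurable t
    have e2 : ∫ x, absb u v t x * φ x = ∫ s in (0:ℝ)..t, ∫ x, v s x * u s x ^ 3 * φ x :=
      fub S.mvu S.abs_vu hφ.int hφ.1.continuous.measurable t
    have hvi : ∀ s, Integrable (fun x => v s x * deriv (deriv φ) x) := fun s =>
      iInt S.mv S.abs_v hφ.deriv.deriv.int s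
    have hvui : ∀ s, Integrable (fun x => v s x * u s x ^ 3 * φ x) := fun s =>
      iInt S.mvu S.abs_vu hφ.int s
    have e3 : ∀ s, ∫ x, (v s x * deriv (deriv φ) x - v s x * u s x ^ 3 * φ x)
        = (∫ x, v s x * deriv (deriv φ) x) - ∫ x, v s x * u s x ^ 3 * φ x :=
      fun s => integral_sub (hvi s) (hvui s)
    have e4 := S.eqv φ hφ t ht
    simp_rw [e3] at e4
    rw [intervalIntegral.integral_sub
      (tInt S.mv S.abs_v hφ.deriv.deriv.int hφ.deriv.deriv.1.continuous.measurable 0 t)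
      (tInt S.mvu S.abs_vu hφ.int hφ.1.continuous.measurable 0 t)] at e4
    have j1 : Integrable (fun x => v t x * φ x) := iInt S.mv S.abs_v hφ.int t
    have j2 : Integrable (fun x => absb u v t x * φ x) :=
      hφ.intMul (lint_of_bdd hZm hZb)
    have j3 : Integrable (fun x => v t x * φ x - φ x) := j1.sub hφ.int
    have e5 : ∫ x, (v t x - 1 + absb u v t x) * φ x
        = (∫ x, v t x * φ x) - (∫ x, φ x) + ∫ x, absb u v t x * φ x := by
      rw [← integral_sub j1 hφ.int, ← integral_add j3 j2]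
      refine integral_congr_ae (Eventually.of_forall fun x => ?_)
      simp only
      ring
    rw [e5, e1, e2, e4]
    ring)
  have hii : ∀ x y, IntervalIntegrable (fun s => v t s - 1 + absb u v t s) volume x y :=
    fun x y => (hH.integrableOn_isCompact isCompact_uIcc).intervalIntegrable
  have hc1 : Continuous (fun x => b + ∫ s in (0:ℝ)..x, (v t s - 1 + absb u v t s)) :=
    continuous_const.add (intervalIntegral.continuous_primitive hii 0)
  refine ⟨fun x => c + ∫ s in (0:ℝ)..x, (b + ∫ r in (0:ℝ)..s, (v t r - 1 + absb u v t r)),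
    fun x => b + ∫ s in (0:ℝ)..x, (v t s - 1 + absb u v t s), ?_, hc1, ?_, hbc, hii⟩
  · intro x
    have := intervalIntegral.integral_hasDerivAt_right (hc1.intervalIntegrable 0 x)
      hc1.aestronglyMeasurable.stronglyMeasurableAtFilter hc1.continuousAt
    exact this.const_add c
  · intro x y
    simp only
    rw [add_sub_add_left_eq_sub, intervalIntegral.integral_interval_sub_left (hii _ _) (hii _ _)]

/-- The continuous-in-time version of `u`. -/
noncomputable def ut (K u0 : ℝ → ℝ) (u v : ℝ → ℝ → ℝ) (t x : ℝ) : ℝ :=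
  u0 x + ∫ s in Ioc 0 t, rhs K u v s x

theorem Sol.mut (S : Sol K u0 T M u v) (hK : Test K) (hu0 : Measurable u0) :
    Measurable (Function.uncurry (ut K u0 u v)) :=
  (hu0.comp measurable_snd).add (mPrim (S.mrhs hK))

theorem Sol.eq_ut (S : Sol K u0 T M u v) {t : ℝ} (ht : t ∈ Icc 0 T) :
    ∀ᵐ x, u t x = ut K u0 u v t x := by
  filter_upwards [S.equ t ht] with x hx
  rw [hx, ut, intervalIntegral.integral_of_le ht.1]
  rfl

theorem Sol.ae_good (S : Sol K u0 T M u v) (hK : Test K) (hu0 : Measurable u0) :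
    ∀ᵐ x, (∀ᵐ s ∂(volume.restrict (Icc 0 T)), u s x = ut K u0 u v s x) ∧
      ∀ q : ℚ, (q:ℝ) ∈ Icc 0 T → u q x = ut K u0 u v q x := by
  have h1 : ∀ᵐ s ∂(volume.restrict (Icc 0 T)), ∀ᵐ x, u s x = ut K u0 u v s x := by
    rw [ae_restrict_iff' measurableSet_Icc]
    exact Eventually.of_forall fun s hs => S.eq_ut hs
  have h2 : MeasurableSet {z : ℝ × ℝ | u z.1 z.2 = ut K u0 u v z.1 z.2} :=
    measurableSet_eq_fun S.mu (S.mut hK hu0)
  have h3 := (Measure.ae_ae_comm h2).1 h1
  have h4 : ∀ᵐ x, ∀ q : ℚ, (q:ℝ) ∈ Icc 0 T → u q x = ut K u0 u v q x := by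
    rw [ae_all_iff]
    intro q
    by_cases hq : (q:ℝ) ∈ Icc 0 T
    · filter_upwards [S.eq_ut hq] with x hx _ using hx
    · exact Eventually.of_forall fun x h => absurd h hq
  filter_upwards [h3, h4] with x hx1 hx2 using ⟨hx1, hx2⟩

theorem Sol.orb (S : Sol K u0 T M u v) (hK : Test K) (hn : ∀ x, 0 ≤ K x) (hT : 0 < T)
    (hu0 : Measurable u0) {G : ℝ} (hG : ∀ t ∈ Icc 0 T, ∀ x, cv K (u t) x ≤ G) {x : ℝ}
    (hx1 : ∀ᵐ s ∂(volume.restrict (Icc 0 T)), u s x = ut K u0 u v s x)
    (hx2 : ∀ q : ℚ, (q:ℝ) ∈ Icc 0 T → u q x = ut K u0 u v q x) :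
    Orb T (∫ y, K y) G M (u0 x) (fun s => cv K (u s) x) (fun s => v s x)
      (fun s => ut K u0 u v s x) := by
  have habs := S.abs_rhs hK hn
  have hcont : ContinuousOn (fun s => ut K u0 u v s x) (Icc 0 T) := by
    have h1 : Continuous (fun t => u0 x + ∫ s in (0:ℝ)..t, rhs K u v s x) :=
      continuous_const.add (intervalIntegral.continuous_primitive
        (fun a b => iiSec (S.mrhs hK) habs x a b) 0)
    refine h1.continuousOn.congr fun t ht => ?_
    simp only [ut]
    rw [intervalIntegral.integral_of_le ht.1]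
  refine ⟨sec' (S.mg hK) x, sec' S.mv x, sec' (S.mut hK hu0) x,
    fun t ht => ⟨S.g_nonneg hn t x, hG t ht x⟩, fun t _ => S.vb t x, fun t ht => ⟨?_, ?_⟩, ?_⟩
  · have := le_of_rat (F := fun s => - ut K u0 u v s x) (c := 0) hT hcont.neg
      (fun q hq => by
        have h := (S.ub q x).1
        rw [hx2 q hq] at h
        linarith) t ht
    linarith
  · exact le_of_rat (F := fun s => ut K u0 u v s x) hT hcont
      (fun q hq => by rw [← hx2 q hq]; exact (S.ub q x).2) t ht
  · intro t ht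
    rw [ut, ← intervalIntegral.integral_of_le ht.1]
    congr 1
    refine intervalIntegral.integral_congr_ae ?_
    rw [ae_restrict_iff' measurableSet_Icc] at hx1
    filter_upwards [hx1] with s hs hs2
    rw [uIoc_of_le ht.1] at hs2
    have := hs ⟨hs2.1.le, hs2.2.trans ht.2⟩
    rw [rhs, ← this]

theorem absb_eq {x t : ℝ} (ht : t ∈ Icc 0 T)
    (hx1 : ∀ᵐ s ∂(volume.restrict (Icc 0 T)), u s x = ut K u0 u v s x) :
    absb u v t x = ∫ s in (0:ℝ)..t, v s x * ut K u0 u v s x ^ 3 := by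
  rw [absb]
  refine intervalIntegral.integral_congr_ae ?_
  rw [ae_restrict_iff' measurableSet_Icc] at hx1
  filter_upwards [hx1] with s hs hs2
  rw [uIoc_of_le ht.1] at hs2
  rw [hs ⟨hs2.1.le, hs2.2.trans ht.2⟩]

end sol

end Pool.Agent.H522R3.Nlr
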