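import Pool.Agent.H522R3.Nlr.Flux

/-! The final contradiction at the time of large flux. -/

open MeasureTheory Set Filter Topology
open scoped ContDiff

namespace Pool.Agent.H522R3.Nlr

/-- The setting at good points. -/
structure Env (τ k C A M : ℝ) (u0 : ℝ → ℝ) (g v U : ℝ → ℝ → ℝ) (Gd : Set ℝ) : Prop where
  τ0 : 0 < τ
  τ1 : τ ≤ 1
  k0 : 0 ≤ k
  C0 : 0 < C
  A0 : 0 < A
  kτ : k * τ ^ 2 ≤ 1 / 4
  Cτ : (360 * k + 4720 * C) * τ ^ 2 ≤ 1
  a2 : A⁻¹ ^ 2 = τ ^ 4 / 1000000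
  ae : ∀ᵐ x, x ∈ Gd
  orb : ∀ x ∈ Gd, Orb (τ ^ 2) k (C * A) M (u0 x) (fun s => g s x) (fun s => v s x)
    (fun s => U s x)
  glip : ∀ t ∈ Icc 0 (τ ^ 2), ∀ x y, |x - y| ≤ 1 → |g t x - g t y| ≤ C * A * |x - y|
  lip : ∀ x ∈ Gd, ∀ y ∈ Gd, ∀ t ∈ Icc 0 (τ ^ 2), |pot v t x - pot v t y| ≤ 3 / 2 * τ * |x - y|
  mid : ∀ x ∈ Ioo (0:ℝ) 1, u0 x = A

variable {τ k C A M : ℝ} {u0 : ℝ → ℝ} {g v U : ℝ → ℝ → ℝ} {Gd : Set ℝ}

theorem Env.etaL (E : Env τ k C A M u0 g v U Gd) {x y β : ℝ} (hx : x ∈ Gd) (hy : y ∈ Gd)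
    (hy01 : y ∈ Ioo (0:ℝ) 1) (hβ0 : 0 ≤ β) (hu0 : 0 < u0 x)
    (hβ : A⁻¹ ^ 2 / 2 + β ≤ (u0 x)⁻¹ ^ 2 / 2) (hβ3 : β ≤ 3 * τ * |x - y|) (hβa : β ≤ A⁻¹ ^ 2)
    (hxy : |x - y| ≤ 1) {t : ℝ} (ht : t ∈ Icc 0 (τ ^ 2)) :
    pot v t y - pot v t x + β - τ / 20 * |x - y| ≤ (U t x)⁻¹ ^ 2 / 2 := by
  have hτ := E.τ0
  have hk := E.k0
  have hC := E.C0
  have hA := E.A0
  have ox := E.orb x hx
  have oy := E.orb y hy
  rw [E.mid y hy01] at oy
  have hT : (0:ℝ) ≤ τ ^ 2 := by positivity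
  set d := |x - y| with hd
  have hd0 : 0 ≤ d := abs_nonneg _
  have hpx0 : ∀ s ∈ Icc 0 (τ ^ 2), 0 ≤ pot v s x := fun s hs =>
    intervalIntegral.integral_nonneg hs.1 fun r hr => (ox.v0 r ⟨hr.1, hr.2.trans hs.2⟩).1
  have hpy : ∀ s ∈ Icc 0 (τ ^ 2), pot v s y ≤ 5 / 2 * A⁻¹ ^ 2 := fun s hs =>
    oy.vbound hk (by linarith [E.kτ]) hA hs
  have ha2 := E.a2
  have hAi : A * A⁻¹ = 1 := mul_inv_cancel₀ hA.ne'
  have hcmp := compare (β := β) (γ := C * A * d) (D := 9 / 2 * τ * d) (R := 4 * A⁻¹)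
    (Λ := 2 * (2 * k * (9 / 2 * τ * d) + C * A * d * (4 * A⁻¹) ^ 3
      + 3 * (C * A) * (4 * A⁻¹) * (9 / 2 * τ * d))) ox oy hk E.kτ hu0 hA (by positivity)
    (by positivity) (by positivity) (fun s hs => E.glip s hs x y hxy) hβ ?_ ?_ le_rfl t ht
  · have e1 : (2 * (2 * k * (9 / 2 * τ * d) + C * A * d * (4 * A⁻¹) ^ 3
      + 3 * (C * A) * (4 * A⁻¹) * (9 / 2 * τ * d)))
        = 2 * d * (9 * k * τ + 64 * C * A⁻¹ ^ 2 + 54 * C * τ) := by
      have e2 : C * A * d * (4 * A⁻¹) ^ 3 = 64 * C * A⁻¹ ^ 2 * d * (A * A⁻¹) := by ring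
      have e3 : 3 * (C * A) * (4 * A⁻¹) * (9 / 2 * τ * d) = 54 * C * τ * d * (A * A⁻¹) := by ring
      rw [e2, e3, hAi]
      ring
    rw [e1] at hcmp
    have h1 : A⁻¹ ^ 2 ≤ τ := by
      rw [ha2]
      have : τ ^ 4 ≤ τ := by
        calc τ ^ 4 ≤ τ ^ 1 := pow_le_pow_of_le_one hτ.le E.τ1 (by norm_num)
          _ = τ := pow_one τ
      linarith
    have h2 : 9 * k * τ + 64 * C * A⁻¹ ^ 2 + 54 * C * τ ≤ (9 * k + 118 * C) * τ := by
      have := mul_le_mul_of_nonneg_left h1 (by positivity : 0 ≤ 64 * C)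
      linarith
    have h3 : 2 * d * (9 * k * τ + 64 * C * A⁻¹ ^ 2 + 54 * C * τ) * t ≤ τ / 20 * d := by
      calc 2 * d * (9 * k * τ + 64 * C * A⁻¹ ^ 2 + 54 * C * τ) * t
          ≤ 2 * d * ((9 * k + 118 * C) * τ) * τ ^ 2 := by
            refine mul_le_mul ?_ ht.2 ht.1 (by positivity)
            exact mul_le_mul_of_nonneg_left h2 (by positivity)
        _ = (τ / 20 * d) * ((360 * k + 4720 * C) * τ ^ 2) := by ring
        _ ≤ (τ / 20 * d) * 1 := mul_le_mul_of_nonneg_left E.Cτ (by positivity)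
        _ = τ / 20 * d := mul_one _
    have h4 : 0 ≤ (U t y)⁻¹ ^ 2 / 2 := by positivity
    have h5 : (∫ s in (0:ℝ)..t, v s y) - (∫ s in (0:ℝ)..t, v s x) + β
        = pot v t y - pot v t x + β := rfl
    rw [h5] at hcmp
    linarith
  · intro s hs
    have h1 := E.lip y hy x hx s hs
    rw [abs_sub_comm y x, ← hd] at h1
    calc |(∫ r in (0:ℝ)..s, v r y) - (∫ r in (0:ℝ)..s, v r x) + β|
        ≤ |(∫ r in (0:ℝ)..s, v r y) - (∫ r in (0:ℝ)..s, v r x)| + |β| := abs_add_le _ _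
      _ ≤ 3 / 2 * τ * d + 3 * τ * d := by
        rw [abs_of_nonneg hβ0]
        exact add_le_add h1 hβ3
      _ = 9 / 2 * τ * d := by ring
  · intro s hs
    have h1 := hpx0 s hs
    have h2 := hpy s hs
    have h5 : (∫ r in (0:ℝ)..s, v r y) - (∫ r in (0:ℝ)..s, v r x) + β
        = pot v s y - pot v s x + β := rfl
    rw [h5]
    have h6 : 0 ≤ A⁻¹ ^ 2 := by positivity
    have h7 : (4 * A⁻¹) ^ 2 = 16 * A⁻¹ ^ 2 := by ring
    rw [h7]
    linarith

theorem Env.exists_left (E : Env τ k C A M u0 g v U Gd) {a : ℝ} (ha : a < 1) :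
    ∃ y ∈ Gd, a < y ∧ y < 1 := by
  have hd : Dense Gd := Measure.dense_of_ae E.ae
  obtain ⟨y, hy, hy2⟩ := hd.exists_mem_open isOpen_Ioo (nonempty_Ioo.2 ha)
  exact ⟨y, hy, hy2⟩

theorem Env.final (E : Env τ k C A M u0 g v U Gd) {W W' H : ℝ → ℝ} {t : ℝ}
    (ht : t ∈ Icc 0 (τ ^ 2))
    (hW : ∀ x, HasDerivAt W (W' x) x) (hWc : Continuous W')
    (hH : ∀ x y, W' y - W' x = ∫ s in x..y, H s)
    (hHi : ∀ x y, IntervalIntegrable H volume x y)
    (hWV : ∀ x ∈ Gd, pot v t x = W x) (hHU : ∀ x ∈ Gd, H x ≤ 2 * U t x)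
    (hW0 : ∀ x, 0 ≤ W x) (hW1 : W 1 ≤ 5 / 2 * A⁻¹ ^ 2)
    (htr : ∀ x ∈ Ioo 1 (1 + A⁻¹ ^ 2 / (3 * τ)), 0 < u0 x ∧
      A⁻¹ ^ 2 / 2 + 3 * τ * (x - 1) ≤ (u0 x)⁻¹ ^ 2 / 2)
    (hflux : τ / 5 ≤ W' (1 + A⁻¹ ^ 2 / (3 * τ))) : False := by
  have hτ := E.τ0
  have hτ1 := E.τ1
  have hA := E.A0
  have ha2 := E.a2
  set b := A⁻¹ ^ 2 with hb
  have hb0 : 0 < b := by positivity
  set δ := b / (3 * τ) with hδ
  have hδ0 : 0 < δ := by positivity
  have hτ3 : τ ^ 3 ≤ 1 := pow_le_one₀ hτ.le hτ1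
  have hδ1 : δ ≤ 1 / 2 := by
    rw [hδ, div_le_iff₀ (by positivity), ha2]
    have : τ ^ 4 = τ * τ ^ 3 := by ring
    nlinarith
  have hUpos : ∀ x ∈ Gd, 0 < u0 x → 0 < U t x := by
    intro x hx hu
    have := (E.orb x hx).pos E.k0 (by linarith [E.kτ]) hu ht
    linarith
  -- transition zone
  have htrans : ∀ x ∈ Gd, x ∈ Ioo 1 (1 + δ) → τ * (x - 1) ≤ (U t x)⁻¹ ^ 2 / 2 := by
    intro x hx hx1
    obtain ⟨hu, hu2⟩ := htr x hx1
    refine le_of_forall_pos_le_add fun ε hε => ?_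
    obtain ⟨y, hy, hy1, hy2⟩ := E.exists_left (a := 1 - min (ε / 2) (1 / 4))
      (by have : 0 < min (ε / 2) (1 / 4 : ℝ) := lt_min (by positivity) (by norm_num)
          linarith)
    have hm1 : min (ε / 2) (1 / 4 : ℝ) ≤ ε / 2 := min_le_left _ _
    have hm2 : min (ε / 2) (1 / 4 : ℝ) ≤ 1 / 4 := min_le_right _ _
    have hxy : |x - y| = x - y := abs_of_pos (by linarith [hx1.1])
    have h1 := E.etaL (β := 3 * τ * (x - 1)) hx hy ⟨by linarith, hy2⟩
      (mul_nonneg (by positivity) (by linarith [hx1.1])) hu hu2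
      (by rw [hxy]; exact mul_le_mul_of_nonneg_left (by linarith) (by positivity))
      (by
        have h2 : 3 * τ * (x - 1) ≤ 3 * τ * δ :=
          mul_le_mul_of_nonneg_left (by linarith [hx1.2]) (by positivity)
        have h3 : 3 * τ * δ = b := by rw [hδ]; field_simp
        linarith)
      (by rw [hxy]; linarith [hx1.2]) ht
    have h2 := abs_le.1 (E.lip y hy x hx t ht)
    rw [abs_sub_comm y x] at h2
    rw [hxy] at h1 h2
    have h3 : τ * (1 - y) ≤ ε / 2 := by nlinarith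
    have h4 : 0 ≤ τ * (x - 1) := mul_nonneg hτ.le (by linarith [hx1.1])
    have h5 : 3 / 2 * τ * (x - y) = 3 / 2 * (τ * (x - 1)) + 3 / 2 * (τ * (1 - y)) := by ring
    have h6 : τ / 20 * (x - y) = 1 / 20 * (τ * (x - 1)) + 1 / 20 * (τ * (1 - y)) := by ring
    have h7 : 3 * τ * (x - 1) = 3 * (τ * (x - 1)) := by ring
    have h8 : 0 ≤ τ * (1 - y) := mul_nonneg hτ.le (by linarith)
    linarith [h2.1]
  -- flux at 1
  have hW'1 : τ / 5 - 2 * τ / 1000 ≤ W' 1 := by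
    set D := √(1 / (2 * τ)) with hD
    have hDsq : D ^ 2 = 1 / (2 * τ) := Real.sq_sqrt (by positivity)
    have hD0 : 0 ≤ D := Real.sqrt_nonneg _
    have h1 : ∫ s in (1:ℝ)..(1 + δ), H s ≤ 2 * (2 * D) * √(1 + δ - 1) := by
      refine sing_left (by linarith) (hHi _ _) ?_
      filter_upwards [E.ae] with x hx hx1
      refine (hHU x hx).trans ?_
      refine two_u_le (q := τ) (hUpos x hx (htr x hx1).1) hD0 (by linarith [hx1.1]) hτ ?_
        (htrans x hx hx1)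
      rw [hDsq]
      field_simp
    rw [← hH, add_sub_cancel_left] at h1
    have h2 : D * √δ ≤ τ / 2000 := by
      refine le_of_sq_le_sq ?_ (by positivity)
      rw [mul_pow, hDsq, Real.sq_sqrt hδ0.le, hδ, ha2]
      have e : 1 / (2 * τ) * (τ ^ 4 / 1000000 / (3 * τ)) = τ ^ 2 / 6000000 := by
        field_simp
        ring
      rw [e]
      nlinarith [sq_nonneg τ]
    linarith
  -- inner zone
  set l := 30 * b / τ with hl
  have hl0 : 0 < l := by positivity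
  have hl1 : l ≤ 1 / 2 := by
    rw [hl, div_le_iff₀ hτ, ha2]
    have : τ ^ 4 = τ * τ ^ 3 := by ring
    nlinarith
  have hdW : deriv W = W' := funext fun x => (hW x).deriv
  have hWd : Differentiable ℝ W := fun x => (hW x).differentiableAt
  have hmvt : ∀ x y : ℝ, x ≤ y → (∀ z ∈ Ioo x y, τ / 10 ≤ W' z) → τ / 10 * (y - x) ≤ W y - W x := by
    intro x y hxy hz
    refine (convex_Icc x y).mul_sub_le_image_sub_of_le_deriv hWd.continuous.continuousOn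
      hWd.differentiableOn (fun z hz2 => ?_) x (left_mem_Icc.2 hxy) y (right_mem_Icc.2 hxy) hxy
    rw [interior_Icc] at hz2
    rw [hdW]
    exact hz z hz2
  set P : Set ℝ := Icc (1 - l) 1 ∩ W' ⁻¹' Iic (τ / 10) with hP
  have hPc : IsClosed P := isClosed_Icc.inter (isClosed_Iic.preimage hWc)
  have hPne : P.Nonempty := by
    by_contra hne
    rw [not_nonempty_iff_eq_empty] at hne
    have h1 : τ / 10 * (1 - (1 - l)) ≤ W 1 - W (1 - l) := by
      refine hmvt _ _ (by linarith) fun z hz => ?_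
      by_contra h2
      have h3 : z ∈ P := by
        refine ⟨⟨hz.1.le, hz.2.le⟩, ?_⟩
        rw [mem_preimage, mem_Iic]
        exact (not_le.1 h2).le
      rw [hne] at h3
      exact h3
    have h2 := hW0 (1 - l)
    have h3 : τ / 10 * l = 3 * b := by rw [hl]; field_simp; norm_num
    rw [sub_sub_cancel, h3] at h1
    linarith
  have hPb : BddAbove P := ⟨1, fun x hx => hx.1.2⟩
  have hxs := hPc.csSup_mem hPne hPb
  set xs := sSup P with hxsd
  have hxs1 : xs < 1 := by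
    rcases hxs.1.2.lt_or_eq with h | h
    · exact h
    · have h1 : W' xs ≤ τ / 10 := hxs.2
      rw [h] at h1
      linarith
  have hxs0 : 1 - l ≤ xs := hxs.1.1
  have hgt : ∀ z, xs < z → z ≤ 1 → τ / 10 ≤ W' z := by
    intro z hz hz1
    by_contra h2
    have h3 : z ∈ P := by
      refine ⟨⟨by linarith, hz1⟩, ?_⟩
      rw [mem_preimage, mem_Iic]
      exact (not_le.1 h2).le
    exact absurd (le_csSup hPb h3) (not_le.2 hz)
  have hinner : ∀ x ∈ Gd, x ∈ Ioo xs 1 → τ / 20 * (1 - x) ≤ (U t x)⁻¹ ^ 2 / 2 := by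
    intro x hx hx1
    have hx0 : x ∈ Ioo (0:ℝ) 1 := ⟨by linarith [hx1.1], hx1.2⟩
    have hu : u0 x = A := E.mid x hx0
    refine le_of_forall_pos_le_add fun ε hε => ?_
    obtain ⟨y, hy, hy1, hy2⟩ := E.exists_left (a := max x (1 - ε)) (max_lt hx1.2 (by linarith))
    have hm1 : x < y := (le_max_left _ _).trans_lt hy1
    have hm2 : 1 - ε < y := (le_max_right _ _).trans_lt hy1
    have hxy : |x - y| = y - x := by rw [abs_sub_comm]; exact abs_of_pos (by linarith)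
    have h1 := E.etaL (β := 0) hx hy ⟨by linarith [hx0.1], hy2⟩ le_rfl (by rw [hu]; exact hA)
      (by rw [hu, add_zero]) (by rw [hxy]; exact mul_nonneg (by positivity) (by linarith))
      hb0.le (by rw [hxy]; linarith [hx0.1]) ht
    rw [hWV y hy, hWV x hx, hxy] at h1
    have h2 := hmvt x y hm1.le fun z hz => hgt z (hx1.1.trans hz.1) (hz.2.le.trans hy2.le)
    have h3 : τ / 20 * (1 - y) ≤ ε := by nlinarith
    have h4 : τ / 20 * (1 - x) = τ / 20 * (1 - y) + τ / 20 * (y - x) := by ring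
    have h5 : τ / 10 * (y - x) = 2 * (τ / 20 * (y - x)) := by ring
    linarith
  have hdrop : W' 1 - W' xs ≤ 72 * τ / 1000 := by
    set D := √(10 / τ) with hD
    have hDsq : D ^ 2 = 10 / τ := Real.sq_sqrt (by positivity)
    have hD0 : 0 ≤ D := Real.sqrt_nonneg _
    have h1 : ∫ s in xs..1, H s ≤ 2 * (2 * D) * √(1 - xs) := by
      refine sing_right hxs1.le (hHi _ _) ?_
      filter_upwards [E.ae] with x hx hx1
      refine (hHU x hx).trans ?_
      have hx0 : x ∈ Ioo (0:ℝ) 1 := ⟨by linarith [hx1.1], hx1.2⟩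
      refine two_u_le (q := τ / 20) (hUpos x hx (by rw [E.mid x hx0]; exact hA)) hD0
        (by linarith [hx1.2]) (by positivity) ?_ (hinner x hx hx1)
      rw [hDsq]
      field_simp
      norm_num
    rw [← hH] at h1
    have h2 : D * √(1 - xs) ≤ 18 * τ / 1000 := by
      refine le_of_sq_le_sq ?_ (by positivity)
      rw [mul_pow, hDsq, Real.sq_sqrt (by linarith)]
      have h3 : 10 / τ * (1 - xs) ≤ 10 / τ * l :=
        mul_le_mul_of_nonneg_left (by linarith) (by positivity)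
      have e : 10 / τ * l = 300 * τ ^ 2 / 1000000 := by
        rw [hl, ha2]
        field_simp
        norm_num
      rw [e] at h3
      nlinarith [sq_nonneg τ]
    linarith
  have h1 : W' xs ≤ τ / 10 := hxs.2
  linarith

end Pool.Agent.H522R3.Nlr
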