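import Mathlib

/-! Distributional second derivatives on the line. -/

open MeasureTheory Set Filter Topology
open scoped ContDiff

namespace Pool.Agent.H522R3.Nlr

/-- Test functions. -/
def Test (φ : ℝ → ℝ) : Prop := ContDiff ℝ ∞ φ ∧ HasCompactSupport φ

theorem Test.deriv {φ : ℝ → ℝ} (h : Test φ) : Test (deriv φ) :=
  ⟨(contDiff_infty_iff_deriv.1 h.1).2, h.2.deriv⟩

theorem Test.bound {φ : ℝ → ℝ} (h : Test φ) : ∃ M : ℝ, 0 < M ∧ ∀ x, M ≤ |x| → φ x = 0 := by
  obtain ⟨M, hM⟩ := h.2.isCompact.isBounded.subset_closedBall 0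
  refine ⟨|M| + 1, by positivity, fun x hx => ?_⟩
  by_contra hne
  have h1 : x ∈ tsupport φ := subset_tsupport _ hne
  have h2 := hM h1
  rw [mem_closedBall_zero_iff, Real.norm_eq_abs] at h2
  have := le_abs_self M
  linarith

theorem Test.intMul {φ V : ℝ → ℝ} (h : Test φ) (hV : LocallyIntegrable V) :
    Integrable (fun x => V x * φ x) := by
  have := hV.integrable_smul_left_of_hasCompactSupport h.1.continuous h.2
  refine this.congr (Eventually.of_forall fun x => ?_)
  simp [mul_comm]

theorem Test.int {φ : ℝ → ℝ} (h : Test φ) : Integrable φ :=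
  h.1.continuous.integrable_of_hasCompactSupport h.2

theorem exists_prim {ψ : ℝ → ℝ} (h : Test ψ) (h3 : ∫ x, ψ x = 0) :
    ∃ φ : ℝ → ℝ, Test φ ∧ _root_.deriv φ = ψ := by
  obtain ⟨M, hM0, hM⟩ := h.bound
  have hd : ∀ x, HasDerivAt (fun x => ∫ t in (-M)..x, ψ t) (ψ x) x := fun x =>
    intervalIntegral.integral_hasDerivAt_right (h.1.continuous.intervalIntegrable _ _)
      h.1.continuous.aestronglyMeasurable.stronglyMeasurableAtFilter h.1.continuous.continuousAt
  have hdd : _root_.deriv (fun x => ∫ t in (-M)..x, ψ t) = ψ := funext fun x => (hd x).deriv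
  refine ⟨fun x => ∫ t in (-M)..x, ψ t, ⟨?_, ?_⟩, hdd⟩
  · rw [contDiff_infty_iff_deriv, hdd]
    exact ⟨fun x => (hd x).differentiableAt, h.1⟩
  · refine HasCompactSupport.of_support_subset_isCompact (isCompact_Icc (a := -M) (b := M)) ?_
    intro x hx
    by_contra hx2
    apply hx
    rw [mem_Icc, not_and_or] at hx2
    rcases hx2 with hx2 | hx2
    · push Not at hx2
      show ∫ t in (-M)..x, ψ t = 0
      refine (intervalIntegral.integral_congr (g := fun _ => (0:ℝ)) fun t ht => ?_).trans (by simp)
      rw [uIcc_of_ge hx2.le] at ht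
      refine hM t ?_
      have : t ≤ -M := ht.2
      rw [abs_of_neg (by linarith)]
      linarith
    · push Not at hx2
      show ∫ t in (-M)..x, ψ t = 0
      rw [intervalIntegral.integral_eq_integral_of_support_subset, h3]
      intro t ht
      by_contra h4
      apply ht
      refine hM t ?_
      rw [mem_Ioc, not_and_or] at h4
      rcases h4 with h4 | h4
      · push Not at h4
        rw [abs_of_neg (by linarith)]
        linarith
      · push Not at h4
        exact (by linarith : M ≤ t).trans (le_abs_self t)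

theorem byparts {Q H φ : ℝ → ℝ} {c : ℝ} (hH : LocallyIntegrable H)
    (hQ : ∀ x, Q x = c + ∫ t in (0:ℝ)..x, H t) (h : Test φ) :
    ∫ x, Q x * _root_.deriv φ x = - ∫ x, H x * φ x := by
  obtain ⟨M, hM0, hM⟩ := h.bound
  obtain ⟨M', hM0', hM'⟩ := h.deriv.bound
  set N := max M M' + 1 with hN
  have hN1 : M < N := by have := le_max_left M M'; linarith
  have hN2 : M' < N := by have := le_max_right M M'; linarith
  have hii : ∀ x y, IntervalIntegrable H volume x y := fun x y =>
    (hH.integrableOn_isCompact isCompact_uIcc).intervalIntegrable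
  have hsup : ∀ {f : ℝ → ℝ}, (∀ x, N ≤ |x| → f x = 0) →
      ∫ x, f x = ∫ x in (-N)..N, f x := by
    intro f hf
    rw [intervalIntegral.integral_eq_integral_of_support_subset]
    intro t ht
    by_contra h4
    apply ht
    refine hf t ?_
    rw [mem_Ioc, not_and_or] at h4
    rcases h4 with h4 | h4
    · push Not at h4
      rw [abs_of_neg (by linarith)]
      linarith
    · push Not at h4
      exact h4.le.trans (le_abs_self t)
  rw [hsup (fun x hx => by rw [hM' x (by linarith), mul_zero]),
    hsup (f := fun x => H x * φ x) (fun x hx => by rw [hM x (by linarith), mul_zero])]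
  have hQ' : Q = fun x => (c + ∫ t in (0:ℝ)..(-N), H t) + ∫ t in (-N)..x, H t := by
    funext x
    rw [hQ x, add_assoc, intervalIntegral.integral_add_adjacent_intervals (hii _ _) (hii _ _)]
  have hacQ : AbsolutelyContinuousOnInterval Q (-N) N := by
    rw [hQ']
    have h1 := (hii (-N) N).absolutelyContinuousOnInterval_intervalIntegral (c := -N) (by simp)
    have h2 : AbsolutelyContinuousOnInterval
        (fun _ : ℝ => c + ∫ t in (0:ℝ)..(-N), H t) (-N) N :=
      (LipschitzWith.const _).lipschitzOnWith.absolutelyContinuousOnInterval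
    exact h2.add h1
  have hacφ : AbsolutelyContinuousOnInterval φ (-N) N :=
    (h.1.of_le (by exact_mod_cast le_top)).contDiffOn.absolutelyContinuousOnInterval
  rw [AbsolutelyContinuousOnInterval.integral_mul_deriv_eq_deriv_mul hacQ hacφ,
    hM N (by rw [abs_of_pos (by linarith)]; exact hN1.le),
    hM (-N) (by rw [abs_neg, abs_of_pos (by linarith)]; exact hN1.le)]
  have : ∫ x in (-N)..N, _root_.deriv Q x * φ x = ∫ x in (-N)..N, H x * φ x := by
    refine intervalIntegral.integral_congr_ae ?_
    filter_upwards [LocallyIntegrable.ae_hasDerivAt_integral hH] with x hx _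
    have h1 : HasDerivAt Q (H x) x := by
      rw [hQ']
      exact (hx (-N)).const_add _
    rw [h1.deriv]
  rw [this]
  ring

/-- A normalised bump. -/
theorem exists_unit : ∃ ρ : ℝ → ℝ, Test ρ ∧ ∫ x, ρ x = 1 := by
  let b : ContDiffBump (0:ℝ) := ⟨1, 2, by norm_num, by norm_num⟩
  exact ⟨b.normed volume, ⟨b.contDiff_normed, b.hasCompactSupport_normed⟩, b.integral_normed⟩

theorem Test.sub_smul {ψ ρ : ℝ → ℝ} (h : Test ψ) (hρ : Test ρ) (m : ℝ) :
    Test (fun x => ψ x - m * ρ x) := by
  refine ⟨h.1.sub (contDiff_const.mul hρ.1), ?_⟩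
  have h2 : HasCompactSupport (fun x => m * ρ x) := hρ.2.mul_left (f := fun _ => m)
  exact h.2.sub h2

theorem const_of_test {w : ℝ → ℝ} (hw : LocallyIntegrable w)
    (h : ∀ φ, Test φ → ∫ x, w x * _root_.deriv φ x = 0) : ∃ c, ∀ᵐ x, w x = c := by
  obtain ⟨ρ, hρ, hρ1⟩ := exists_unit
  set c := ∫ x, w x * ρ x with hc
  refine ⟨c, ?_⟩
  have hloc : LocallyIntegrable (fun x => w x - c) := hw.sub (locallyIntegrable_const c)
  have := ae_eq_zero_of_integral_contDiff_smul_eq_zero hloc ?_
  · filter_upwards [this] with x hx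
    linarith
  · intro ψ h1 h2
    have hψ : Test ψ := ⟨h1, h2⟩
    set m := ∫ x, ψ x with hm
    have ht := hψ.sub_smul hρ m
    have hz : ∫ x, (ψ x - m * ρ x) = 0 := by
      rw [integral_sub hψ.int (hρ.int.const_mul m), integral_const_mul, hρ1, ← hm]
      ring
    obtain ⟨φ, hφ, hφd⟩ := exists_prim ht hz
    have h3 := h φ hφ
    rw [hφd] at h3
    have h4 : ∫ x, w x * (ψ x - m * ρ x) = (∫ x, w x * ψ x) - m * ∫ x, w x * ρ x := by
      rw [← integral_const_mul, ← integral_sub (hψ.intMul hw) ((hρ.intMul hw).const_mul m)]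
      refine integral_congr_ae (Eventually.of_forall fun x => ?_)
      simp only
      ring
    have h5 : ∫ x, ψ x • (w x - c) = (∫ x, w x * ψ x) - c * ∫ x, ψ x := by
      rw [← integral_const_mul, ← integral_sub (hψ.intMul hw) (hψ.int.const_mul c)]
      refine integral_congr_ae (Eventually.of_forall fun x => ?_)
      simp only [smul_eq_mul]
      ring
    rw [h5, ← hm]
    rw [h4, ← hc] at h3
    linarith

theorem rep {V H : ℝ → ℝ} (hV : LocallyIntegrable V) (hH : LocallyIntegrable H)
    (h : ∀ φ, Test φ → ∫ x, V x * _root_.deriv (_root_.deriv φ) x = ∫ x, H x * φ x) :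
    ∃ b c : ℝ, ∀ᵐ x, V x = c + ∫ s in (0:ℝ)..x, (b + ∫ t in (0:ℝ)..s, H t) := by
  obtain ⟨ρ, hρ, hρ1⟩ := exists_unit
  set Q : ℝ → ℝ := fun x => ∫ t in (0:ℝ)..x, H t with hQ
  have hii : ∀ x y, IntervalIntegrable H volume x y := fun x y =>
    (hH.integrableOn_isCompact isCompact_uIcc).intervalIntegrable
  have hQc : Continuous Q := intervalIntegral.continuous_primitive hii 0
  have hQl : LocallyIntegrable Q := hQc.locallyIntegrable
  have hbQ : ∀ φ, Test φ → ∫ x, Q x * _root_.deriv φ x = - ∫ x, H x * φ x := fun φ hφ =>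
    byparts (c := 0) hH (fun x => by simp [hQ]) hφ
  set b' := (∫ x, V x * _root_.deriv ρ x) + ∫ x, Q x * ρ x with hb'
  have key : ∀ ψ, Test ψ → (∫ x, V x * _root_.deriv ψ x) + ∫ x, Q x * ψ x
      = b' * ∫ x, ψ x := by
    intro ψ hψ
    set m := ∫ x, ψ x with hm
    have ht := hψ.sub_smul hρ m
    have hz : ∫ x, (ψ x - m * ρ x) = 0 := by
      rw [integral_sub hψ.int (hρ.int.const_mul m), integral_const_mul, hρ1, ← hm]
      ring
    obtain ⟨φ, hφ, hφd⟩ := exists_prim ht hz
    have h3 := h φ hφ
    have h4 := hbQ φ hφ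
    rw [hφd] at h3 h4
    have hder : ∀ x, _root_.deriv (fun x => ψ x - m * ρ x) x
        = _root_.deriv ψ x - m * _root_.deriv ρ x := by
      intro x
      have h5 : DifferentiableAt ℝ ψ x := (hψ.1.differentiable (by simp)) x
      have h6 : DifferentiableAt ℝ ρ x := (hρ.1.differentiable (by simp)) x
      exact (h5.hasDerivAt.sub (h6.hasDerivAt.const_mul m)).deriv
    have h7 : ∫ x, V x * _root_.deriv (fun x => ψ x - m * ρ x) x
        = (∫ x, V x * _root_.deriv ψ x) - m * ∫ x, V x * _root_.deriv ρ x := by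
      rw [← integral_const_mul,
        ← integral_sub (hψ.deriv.intMul hV) ((hρ.deriv.intMul hV).const_mul m)]
      refine integral_congr_ae (Eventually.of_forall fun x => ?_)
      simp only [hder]
      ring
    have h8 : ∫ x, Q x * (ψ x - m * ρ x) = (∫ x, Q x * ψ x) - m * ∫ x, Q x * ρ x := by
      rw [← integral_const_mul, ← integral_sub (hψ.intMul hQl) ((hρ.intMul hQl).const_mul m)]
      refine integral_congr_ae (Eventually.of_forall fun x => ?_)
      simp only
      ring
    rw [h7] at h3
    rw [h8] at h4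
    rw [hb']
    linarith
  have hPl : LocallyIntegrable (fun s => -b' + Q s) := (continuous_const.add hQc).locallyIntegrable
  set P : ℝ → ℝ := fun x => ∫ s in (0:ℝ)..x, (-b' + Q s) with hP
  have hPc : Continuous P := intervalIntegral.continuous_primitive
    (fun x y => (continuous_const.add hQc).intervalIntegrable _ _) 0
  have hbP : ∀ φ, Test φ → ∫ x, P x * _root_.deriv φ x = - ∫ x, (-b' + Q x) * φ x := fun φ hφ =>
    byparts (c := 0) hPl (fun x => by simp [hP]) hφ
  obtain ⟨c, hc⟩ := const_of_test (w := fun x => V x - P x) (hV.sub hPc.locallyIntegrable) (by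
    intro φ hφ
    have h1 : ∫ x, (V x - P x) * _root_.deriv φ x
        = (∫ x, V x * _root_.deriv φ x) - ∫ x, P x * _root_.deriv φ x := by
      rw [← integral_sub (hφ.deriv.intMul hV) (hφ.deriv.intMul hPc.locallyIntegrable)]
      refine integral_congr_ae (Eventually.of_forall fun x => ?_)
      simp only
      ring
    have h2 : ∫ x, (-b' + Q x) * φ x = -b' * (∫ x, φ x) + ∫ x, Q x * φ x := by
      rw [← integral_const_mul, ← integral_add (hφ.int.const_mul _) (hφ.intMul hQl)]
      refine integral_congr_ae (Eventually.of_forall fun x => ?_)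
      simp only
      ring
    have h3 := key φ hφ
    rw [h1, hbP φ hφ, h2]
    linarith)
  refine ⟨-b', c, ?_⟩
  filter_upwards [hc] with x hx
  show V x = c + P x
  linarith

end Pool.Agent.H522R3.Nlr
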