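import Pool.Agent.H522R3.Nlr.Cmp
import Pool.Agent.H522R3.Nlr.Pot

/-! Weak solutions: measurability, Fubini, local mass bound. -/

open MeasureTheory Set Filter Topology
open scoped ContDiff

namespace Pool.Agent.H522R3.Nlr

/-- `K * w`. -/
noncomputable def cv (K w : ℝ → ℝ) (x : ℝ) : ℝ := ∫ y, K y * w (x - y)

/-- Bounded weak solutions. -/
structure Sol (K u0 : ℝ → ℝ) (T M : ℝ) (u v : ℝ → ℝ → ℝ) : Prop where
  mu : Measurable (Function.uncurry u)
  mv : Measurable (Function.uncurry v)
  ub : ∀ t x, 0 ≤ u t x ∧ u t x ≤ M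
  vb : ∀ t x, 0 ≤ v t x ∧ v t x ≤ 1
  equ : ∀ t ∈ Icc 0 T, ∀ᵐ x, u t x = u0 x + ∫ s in (0:ℝ)..t,
    (cv K (u s) x - (∫ y, K y) * u s x + v s x * u s x ^ 3)
  eqv : ∀ φ, Test φ → ∀ t ∈ Icc 0 T, ∫ x, v t x * φ x = (∫ x, φ x) + ∫ s in (0:ℝ)..t,
    ∫ x, (v s x * deriv (deriv φ) x - v s x * u s x ^ 3 * φ x)

section gen

variable {h : ℝ → ℝ → ℝ} {C : ℝ} {φ : ℝ → ℝ}

theorem sec (mh : Measurable (Function.uncurry h)) (s : ℝ) : Measurable (h s) :=
  mh.comp measurable_prodMk_left

theorem sec' (mh : Measurable (Function.uncurry h)) (x : ℝ) : Measurable (fun s => h s x) :=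
  mh.comp measurable_prodMk_right

theorem iInt (mh : Measurable (Function.uncurry h)) (hC : ∀ s x, |h s x| ≤ C)
    (hφ : Integrable φ) (s : ℝ) : Integrable (fun x => h s x * φ x) :=
  hφ.bdd_mul (c := C) (sec mh s).aestronglyMeasurable
    (Eventually.of_forall fun x => by rw [Real.norm_eq_abs]; exact hC s x)

theorem mInt (mh : Measurable (Function.uncurry h)) (hφm : Measurable φ) :
    Measurable (fun s => ∫ x, h s x * φ x) := by
  have h1 : StronglyMeasurable (Function.uncurry fun s x => h s x * φ x) :=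
    (mh.mul (hφm.comp measurable_snd)).stronglyMeasurable
  exact h1.integral_prod_right.measurable

theorem bInt (hC : ∀ s x, |h s x| ≤ C) (hφ : Integrable φ) (s : ℝ) :
    |∫ x, h s x * φ x| ≤ C * ∫ x, |φ x| := by
  rw [← integral_const_mul]
  have := norm_integral_le_of_norm_le (f := fun x => h s x * φ x) (hφ.abs.const_mul C)
    (Eventually.of_forall fun x => by
      rw [norm_mul, Real.norm_eq_abs, Real.norm_eq_abs]
      exact mul_le_mul_of_nonneg_right (hC s x) (abs_nonneg _))
  rwa [Real.norm_eq_abs] at this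

theorem tInt (mh : Measurable (Function.uncurry h)) (hC : ∀ s x, |h s x| ≤ C)
    (hφ : Integrable φ) (hφm : Measurable φ) (a b : ℝ) :
    IntervalIntegrable (fun s => ∫ x, h s x * φ x) volume a b := by
  rw [intervalIntegrable_iff]
  refine Measure.integrableOn_of_bounded (M := C * ∫ x, |φ x|) (by simp)
    (mInt mh hφm).aestronglyMeasurable ?_
  exact Eventually.of_forall fun s => by rw [Real.norm_eq_abs]; exact bInt hC hφ s

theorem fub (mh : Measurable (Function.uncurry h)) (hC : ∀ s x, |h s x| ≤ C)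
    (hφ : Integrable φ) (hφm : Measurable φ) (t : ℝ) :
    ∫ x, (∫ s in (0:ℝ)..t, h s x) * φ x = ∫ s in (0:ℝ)..t, ∫ x, h s x * φ x := by
  rw [intervalIntegral_integral_swap]
  · refine integral_congr_ae (Eventually.of_forall fun x => ?_)
    simp only
    rw [intervalIntegral.integral_mul_const]
  · have h1 : Integrable (fun z : ℝ × ℝ => C * |φ z.2|)
        ((volume.restrict (uIoc 0 t)).prod volume) := by
      have : Integrable (fun _ : ℝ => C) (volume.restrict (uIoc 0 t)) := by
        have := (intervalIntegrable_const (μ := volume) (a := (0:ℝ)) (b := t) (c := C))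
        rwa [intervalIntegrable_iff] at this
      exact this.mul_prod hφ.abs
    refine h1.mono' ?_ ?_
    · exact (mh.mul (hφm.comp measurable_snd)).aestronglyMeasurable
    · refine Eventually.of_forall fun z => ?_
      simp only [Function.uncurry, norm_mul, Real.norm_eq_abs]
      exact mul_le_mul_of_nonneg_right (hC _ _) (abs_nonneg _)

theorem iiSec (mh : Measurable (Function.uncurry h)) (hC : ∀ s x, |h s x| ≤ C) (x a b : ℝ) :
    IntervalIntegrable (fun s => h s x) volume a b := by
  rw [intervalIntegrable_iff]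
  refine Measure.integrableOn_of_bounded (M := C) (by simp)
    (sec' mh x).aestronglyMeasurable ?_
  exact Eventually.of_forall fun s => by rw [Real.norm_eq_abs]; exact hC s x

theorem mPrim (mh : Measurable (Function.uncurry h)) :
    Measurable (Function.uncurry fun t x => ∫ s in Ioc 0 t, h s x) := by
  have h1 : Measurable (fun z : (ℝ × ℝ) × ℝ => if 0 < z.2 ∧ z.2 ≤ z.1.1 then h z.2 z.1.2 else 0) := by
    refine Measurable.ite ?_ ?_ measurable_const
    · exact (measurableSet_lt measurable_const measurable_snd).inter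
        (measurableSet_le measurable_snd measurable_fst.fst)
    · exact mh.comp (measurable_snd.prodMk measurable_fst.snd)
  have h2 := h1.stronglyMeasurable.integral_prod_right' (ν := volume)
  have h3 : (Function.uncurry fun t x => ∫ s in Ioc 0 t, h s x)
      = fun z : ℝ × ℝ => ∫ s, (if 0 < s ∧ s ≤ z.1 then h s z.2 else 0) := by
    funext z
    simp only [Function.uncurry]
    rw [← integral_indicator measurableSet_Ioc]
    refine integral_congr_ae (Eventually.of_forall fun s => ?_)
    simp only [indicator, mem_Ioc]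
  rw [h3]
  exact h2.measurable

end gen

section sol

variable {K u0 : ℝ → ℝ} {T M : ℝ} {u v : ℝ → ℝ → ℝ}

theorem Sol.M0 (S : Sol K u0 T M u v) : 0 ≤ M := (S.ub 0 0).1.trans (S.ub 0 0).2

theorem Sol.mg (S : Sol K u0 T M u v) (hK : Test K) :
    Measurable (Function.uncurry fun s x => cv K (u s) x) := by
  have h1 : Measurable (fun z : (ℝ × ℝ) × ℝ => K z.2 * u z.1.1 (z.1.2 - z.2)) := by
    refine (hK.1.continuous.measurable.comp measurable_snd).mul ?_
    exact S.mu.comp (measurable_fst.fst.prodMk (measurable_fst.snd.sub measurable_snd))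
  exact (h1.stronglyMeasurable.integral_prod_right' (ν := volume)).measurable

theorem cv_eq (K w : ℝ → ℝ) (x : ℝ) : cv K w x = ∫ y, w y * K (x - y) := by
  have := integral_sub_left_eq_self (fun y => w y * K (x - y)) volume x
  rw [← this]
  refine integral_congr_ae (Eventually.of_forall fun y => ?_)
  simp only [sub_sub_cancel]
  ring

theorem Test.shift {φ : ℝ → ℝ} (h : Test φ) (a : ℝ) : Test (fun x => φ (x - a)) := by
  refine ⟨h.1.comp (contDiff_id.sub contDiff_const), ?_⟩
  exact h.2.comp_homeomorph (Homeomorph.subRight a)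

theorem Test.flip {φ : ℝ → ℝ} (h : Test φ) (a : ℝ) : Test (fun x => φ (a - x)) := by
  refine ⟨h.1.comp (contDiff_const.sub contDiff_id), ?_⟩
  exact h.2.comp_homeomorph (Homeomorph.subLeft a)

theorem Sol.abs_u (S : Sol K u0 T M u v) (s x : ℝ) : |u s x| ≤ M := by
  rw [abs_of_nonneg (S.ub s x).1]; exact (S.ub s x).2

theorem Sol.abs_v (S : Sol K u0 T M u v) (s x : ℝ) : |v s x| ≤ 1 := by
  rw [abs_of_nonneg (S.vb s x).1]; exact (S.vb s x).2

theorem Sol.abs_vu (S : Sol K u0 T M u v) (s x : ℝ) : |v s x * u s x ^ 3| ≤ M ^ 3 := by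
  obtain ⟨u1, u2⟩ := S.ub s x
  obtain ⟨v1, v2⟩ := S.vb s x
  have h1 : u s x ^ 3 ≤ M ^ 3 := pow_le_pow_left₀ u1 u2 3
  rw [abs_of_nonneg (by positivity)]
  nlinarith [pow_nonneg u1 3]

theorem Sol.mvu (S : Sol K u0 T M u v) :
    Measurable (Function.uncurry fun s x => v s x * u s x ^ 3) :=
  S.mv.mul (S.mu.pow_const 3)

theorem Sol.g_nonneg (S : Sol K u0 T M u v) (hn : ∀ x, 0 ≤ K x) (s x : ℝ) : 0 ≤ cv K (u s) x :=
  integral_nonneg fun y => mul_nonneg (hn y) (S.ub s _).1

theorem Sol.g_le (S : Sol K u0 T M u v) (hK : Test K) (hn : ∀ x, 0 ≤ K x) (s x : ℝ) :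
    cv K (u s) x ≤ (∫ y, K y) * M := by
  rw [← integral_mul_const]
  refine integral_mono ?_ (hK.int.mul_const M) fun y => ?_
  · refine (hK.int.bdd_mul (c := M) (f := fun y => u s (x - y)) ?_ ?_).congr ?_
    · exact ((sec S.mu s).comp (measurable_const.sub measurable_id)).aestronglyMeasurable
    · exact Eventually.of_forall fun y => by rw [Real.norm_eq_abs]; exact S.abs_u s _
    · exact Eventually.of_forall fun y => by simp only; ring
  · exact mul_le_mul_of_nonneg_left (S.ub s _).2 (hn y)

/-- The right-hand side of the `u` equation. -/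
noncomputable def rhs (K : ℝ → ℝ) (u v : ℝ → ℝ → ℝ) (s x : ℝ) : ℝ :=
  cv K (u s) x - (∫ y, K y) * u s x + v s x * u s x ^ 3

theorem Sol.mrhs (S : Sol K u0 T M u v) (hK : Test K) :
    Measurable (Function.uncurry (rhs K u v)) :=
  ((S.mg hK).sub (S.mu.const_mul _)).add S.mvu

theorem Sol.abs_rhs (S : Sol K u0 T M u v) (hK : Test K) (hn : ∀ x, 0 ≤ K x) (s x : ℝ) :
    |rhs K u v s x| ≤ (∫ y, K y) * M + M ^ 3 := by
  have h1 := S.g_nonneg hn s x
  have h2 := S.g_le hK hn s x
  have h3 := S.abs_vu s x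
  obtain ⟨u1, u2⟩ := S.ub s x
  obtain ⟨v1, v2⟩ := S.vb s x
  have hk : 0 ≤ ∫ y, K y := integral_nonneg hn
  have h4 : 0 ≤ v s x * u s x ^ 3 := by positivity
  rw [abs_of_nonneg h4] at h3
  have h5 : 0 ≤ (∫ y, K y) * u s x := by positivity
  have h6 : (∫ y, K y) * u s x ≤ (∫ y, K y) * M := by gcongr
  have h7 : 0 ≤ M ^ 3 := pow_nonneg S.M0 3
  rw [rhs, abs_le]
  constructor <;> linarith

/-- Local mass of `u`. -/
noncomputable def mass (χ : ℝ → ℝ) (u : ℝ → ℝ → ℝ) (t a : ℝ) : ℝ := ∫ x, u t x * χ (x - a)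

theorem Sol.mass_cv (S : Sol K u0 T M u v) (hK : Test K) {χ : ℝ → ℝ} (hχ : Test χ)
    (s a : ℝ) : ∫ x, cv K (u s) x * χ (x - a) = ∫ y, K y * mass χ u s (a - y) := by
  have h1 : ∀ x, cv K (u s) x * χ (x - a) = ∫ y, K y * u s (x - y) * χ (x - a) := by
    intro x
    rw [cv, ← integral_mul_const]
  simp_rw [h1]
  rw [integral_integral_swap]
  · refine integral_congr_ae (Eventually.of_forall fun y => ?_)
    simp only [mass]
    rw [← integral_sub_right_eq_self (fun x => u s x * χ (x - (a - y))) y, ← integral_const_mul]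
    refine integral_congr_ae (Eventually.of_forall fun x => ?_)
    simp only
    rw [show x - y - (a - y) = x - a by ring]
    ring
  · have h2 : Integrable (fun z : ℝ × ℝ => (M * |χ (z.1 - a)|) * |K z.2|) (volume.prod volume) :=
      (((hχ.shift a).int.abs).const_mul M).mul_prod hK.int.abs
    refine h2.mono' ?_ ?_
    · refine Measurable.aestronglyMeasurable ?_
      refine ((hK.1.continuous.measurable.comp measurable_snd).mul
        ((sec S.mu s).comp (measurable_fst.sub measurable_snd))).mul ?_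
      exact (hχ.shift a).1.continuous.measurable.comp measurable_fst
    · refine Eventually.of_forall fun z => ?_
      simp only [Function.uncurry, norm_mul, Real.norm_eq_abs]
      have := S.abs_u s (z.1 - z.2)
      have h3 : 0 ≤ |K z.2| * |χ (z.1 - a)| := by positivity
      nlinarith

theorem Sol.mass_bound (S : Sol K u0 T M u v) (hK : Test K) (hn : ∀ x, 0 ≤ K x) (hT : 0 ≤ T)
    (hT1 : T ≤ 1) (hkT : (∫ y, K y) * T ≤ 1 / 2)
    {χ : ℝ → ℝ} (hχ : Test χ) (hχ0 : ∀ x, 0 ≤ χ x)
    {A0 : ℝ} (hu0c : Continuous u0)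
    (hA0 : ∀ a, ∫ x, u0 x * χ (x - a) ≤ A0) (t : ℝ) (ht : t ∈ Icc 0 T) (a : ℝ) :
    mass χ u t a ≤ 2 * (A0 + (∫ x, χ x) + ∫ x, |deriv (deriv χ) x|) := by
  set k := ∫ y, K y with hk
  have hk0 : 0 ≤ k := integral_nonneg hn
  set J : Set ℝ := {r | ∃ t ∈ Icc 0 T, ∃ a, r = mass χ u t a} with hJ
  have hJb : BddAbove J := by
    refine ⟨M * ∫ x, |χ x|, ?_⟩
    rintro r ⟨t, ht, a, rfl⟩
    have h1 := bInt S.abs_u (hχ.shift a).int t
    rw [integral_sub_right_eq_self (fun x => |χ x|) a] at h1
    exact (le_abs_self _).trans h1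
  have hJm : ∀ t ∈ Icc 0 T, ∀ a, mass χ u t a ≤ sSup J := fun t ht a => le_csSup hJb ⟨t, ht, a, rfl⟩
  set m := sSup J with hm
  have hmass0 : ∀ t a, 0 ≤ mass χ u t a := fun t a =>
    integral_nonneg fun x => mul_nonneg (S.ub t x).1 (hχ0 _)
  have hm0 : 0 ≤ m := (hmass0 0 0).trans (hJm 0 ⟨le_rfl, hT⟩ 0)
  have claim : ∀ t ∈ Icc 0 T, ∀ a, mass χ u t a
      ≤ A0 + (∫ x, χ x) + (∫ x, |deriv (deriv χ) x|) + m / 2 := by
    intro t ht a
    have hχa := hχ.shift a
    have hder : ∀ x, deriv (deriv fun x => χ (x - a)) x = deriv (deriv χ) (x - a) := by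
      have h1 : (deriv fun x => χ (x - a)) = fun x => deriv χ (x - a) := by
        funext x; exact deriv_comp_sub_const (f := χ) a x
      intro x
      rw [h1]
      exact deriv_comp_sub_const (f := deriv χ) a x
    have hu0i : Integrable (fun x => u0 x * χ (x - a)) :=
      hχa.intMul hu0c.locallyIntegrable
    have habs := S.abs_rhs hK hn
    have e1 : mass χ u t a = (∫ x, u0 x * χ (x - a))
        + ∫ s in (0:ℝ)..t, ∫ x, rhs K u v s x * χ (x - a) := by
      rw [← fub (S.mrhs hK) habs hχa.int hχa.1.continuous.measurable t, mass]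
      have h2 : Integrable (fun x => (∫ s in (0:ℝ)..t, rhs K u v s x) * χ (x - a)) := by
        have hmeas : Measurable (fun x => ∫ s in (0:ℝ)..t, rhs K u v s x) := by
          have h3 := sec (mPrim (S.mrhs hK)) t
          have h4 : (fun x => ∫ s in (0:ℝ)..t, rhs K u v s x)
              = fun x => ∫ s in Ioc 0 t, rhs K u v s x := by
            funext x; rw [intervalIntegral.integral_of_le ht.1]
          rw [h4]; exact h3
        refine hχa.int.bdd_mul (c := ((∫ y, K y) * M + M ^ 3) * |t - 0|) hmeas.aestronglyMeasurable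
          (Eventually.of_forall fun x => ?_)
        exact intervalIntegral.norm_integral_le_of_norm_le_const fun s _ => by
          rw [Real.norm_eq_abs]; exact habs s x
      rw [← integral_add hu0i h2]
      refine integral_congr_ae ?_
      filter_upwards [S.equ t ht] with x hx
      rw [hx]
      simp only [rhs]
      ring
    have e2 := S.eqv _ hχa t ht
    have h3 : 0 ≤ ∫ x, v t x * χ (x - a) :=
      integral_nonneg fun x => mul_nonneg (S.vb t x).1 (hχ0 _)
    have hvi : ∀ s, Integrable (fun x => v s x * deriv (deriv fun x => χ (x - a)) x) := fun s =>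
      iInt S.mv S.abs_v hχa.deriv.deriv.int s
    have hvui : ∀ s, Integrable (fun x => v s x * u s x ^ 3 * χ (x - a)) := fun s =>
      iInt S.mvu S.abs_vu hχa.int s
    have e3 : ∀ s, ∫ x, (v s x * deriv (deriv fun x => χ (x - a)) x
        - v s x * u s x ^ 3 * χ (x - a))
        = (∫ x, v s x * deriv (deriv fun x => χ (x - a)) x)
          - ∫ x, v s x * u s x ^ 3 * χ (x - a) := fun s => integral_sub (hvi s) (hvui s)
    simp_rw [e3] at e2
    have i1 : IntervalIntegrable (fun s => ∫ x, rhs K u v s x * χ (x - a)) volume 0 t :=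
      tInt (S.mrhs hK) habs hχa.int hχa.1.continuous.measurable 0 t
    have i2 : IntervalIntegrable (fun s => ∫ x, v s x * deriv (deriv fun x => χ (x - a)) x)
        volume 0 t :=
      tInt S.mv S.abs_v hχa.deriv.deriv.int hχa.deriv.deriv.1.continuous.measurable 0 t
    have i3 : IntervalIntegrable (fun s => ∫ x, v s x * u s x ^ 3 * χ (x - a)) volume 0 t :=
      tInt S.mvu S.abs_vu hχa.int hχa.1.continuous.measurable 0 t
    have hχint : ∫ x, χ (x - a) = ∫ x, χ x := integral_sub_right_eq_self χ a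
    have hχ2int : ∫ x, |deriv (deriv χ) (x - a)| = ∫ x, |deriv (deriv χ) x| :=
      integral_sub_right_eq_self (fun x => |deriv (deriv χ) x|) a
    have key : ∫ s in (0:ℝ)..t, ((∫ x, rhs K u v s x * χ (x - a))
        + ((∫ x, v s x * deriv (deriv fun x => χ (x - a)) x)
          - ∫ x, v s x * u s x ^ 3 * χ (x - a)))
        ≤ ∫ s in (0:ℝ)..t, (k * m + ∫ x, |deriv (deriv χ) x|) := by
      refine intervalIntegral.integral_mono_on ht.1 (i1.add (i2.sub i3))
        intervalIntegrable_const fun s hs => ?_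
      have hs' : s ∈ Icc 0 T := ⟨hs.1, hs.2.trans ht.2⟩
      have j1 : Integrable (fun x => cv K (u s) x * χ (x - a)) :=
        iInt (h := fun s x => cv K (u s) x) (C := (∫ y, K y) * M) (S.mg hK) (fun s x => by
          rw [abs_of_nonneg (S.g_nonneg hn s x)]; exact S.g_le hK hn s x) hχa.int s
      have j2 : Integrable (fun x => u s x * χ (x - a)) := iInt S.mu S.abs_u hχa.int s
      have e4 : ∫ x, rhs K u v s x * χ (x - a) = (∫ x, cv K (u s) x * χ (x - a))
          - k * (∫ x, u s x * χ (x - a)) + ∫ x, v s x * u s x ^ 3 * χ (x - a) := by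
        have j3 : Integrable (fun x => cv K (u s) x * χ (x - a)
          - k * (u s x * χ (x - a))) := j1.sub (j2.const_mul k)
        rw [← integral_const_mul, ← integral_sub j1 (j2.const_mul k),
          ← integral_add j3 (hvui s)]
        refine integral_congr_ae (Eventually.of_forall fun x => ?_)
        simp only [rhs]
        ring
      have e5 : ∫ x, cv K (u s) x * χ (x - a) ≤ k * m := by
        rw [S.mass_cv hK hχ s a, hk, ← integral_mul_const]
        refine integral_mono_of_nonneg (Eventually.of_forall fun y => ?_) (hK.int.mul_const m)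
          (Eventually.of_forall fun y => ?_)
        · exact mul_nonneg (hn y) (hmass0 _ _)
        · exact mul_le_mul_of_nonneg_left (hJm s hs' _) (hn y)
      have e6 : 0 ≤ k * (∫ x, u s x * χ (x - a)) := mul_nonneg hk0 (hmass0 s a)
      have e7 : ∫ x, v s x * deriv (deriv fun x => χ (x - a)) x ≤ ∫ x, |deriv (deriv χ) x| := by
        have := bInt S.abs_v hχa.deriv.deriv.int s
        simp only [hder, one_mul] at this
        rw [hχ2int] at this
        have h8 := (le_abs_self _).trans this
        simpa only [hder] using h8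
      linarith
    rw [intervalIntegral.integral_add i1 (i2.sub i3), intervalIntegral.integral_const,
      smul_eq_mul] at key
    have h9 : (t - 0) * (k * m + ∫ x, |deriv (deriv χ) x|)
        ≤ m / 2 + ∫ x, |deriv (deriv χ) x| := by
      have h10 : 0 ≤ ∫ x, |deriv (deriv χ) x| := integral_nonneg fun x => abs_nonneg _
      have h11 : k * t ≤ 1 / 2 := (mul_le_mul_of_nonneg_left ht.2 hk0).trans hkT
      have h12 : t ≤ 1 := ht.2.trans hT1
      have h13 : k * t * m ≤ 1 / 2 * m := by gcongr
      nlinarith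
    have h14 := hA0 a
    rw [hχint] at e2
    rw [e1]
    linarith
  have hm2 : m ≤ A0 + (∫ x, χ x) + (∫ x, |deriv (deriv χ) x|) + m / 2 := by
    refine csSup_le ⟨_, 0, ⟨le_rfl, hT⟩, 0, rfl⟩ ?_
    rintro r ⟨t, ht, a, rfl⟩
    exact claim t ht a
  have := hJm t ht a
  linarith

end sol

end Pool.Agent.H522R3.Nlr
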