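import Mathlib

/-! Scalar facts about integral equations in time. -/

open MeasureTheory Set Filter Topology

namespace Pool.Agent.H522R3.Nlr

theorem ii_of_bdd {f : ℝ → ℝ} {a b C : ℝ} (hab : a ≤ b) (hf : Measurable f)
    (hb : ∀ t ∈ Icc a b, |f t| ≤ C) : IntervalIntegrable f volume a b := by
  rw [intervalIntegrable_iff_integrableOn_Icc_of_le hab]
  refine Measure.integrableOn_of_bounded (M := C) (by simp) hf.aestronglyMeasurable ?_
  rw [ae_restrict_iff' measurableSet_Icc]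
  exact Eventually.of_forall fun t ht => by rw [Real.norm_eq_abs]; exact hb t ht

theorem nonpos_of_integral {a b w0 Λ : ℝ} {w h : ℝ → ℝ} (hΛ : 0 ≤ Λ)
    (hh : IntervalIntegrable h volume a b)
    (hw : ∀ t ∈ Icc a b, w t = w0 + ∫ s in a..t, h s) (h0 : w0 ≤ 0)
    (hle : ∀ᵐ s, s ∈ Icc a b → 0 < w s → h s ≤ Λ * w s) : ∀ t ∈ Icc a b, w t ≤ 0 := by
  intro t1 ht1
  by_contra hcon
  push Not at hcon
  have hab : a ≤ b := ht1.1.trans ht1.2
  have hcont : ContinuousOn w (Icc a b) := by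
    have h1 : ContinuousOn (fun t => w0 + ∫ s in a..t, h s) (Icc a b) := by
      refine continuousOn_const.add ?_
      have := intervalIntegral.continuousOn_primitive_interval (μ := volume) (f := h)
        (a := a) (b := b) ((intervalIntegrable_iff_integrableOn_Icc_of_le hab).1 hh |>.mono_set
          (by rw [uIcc_of_le hab]))
      rwa [uIcc_of_le hab] at this
    exact h1.congr hw
  have hint : ∀ x y, a ≤ x → x ≤ y → y ≤ b → IntervalIntegrable h volume x y := by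
    intro x y hx hxy hy
    refine hh.mono_set ?_
    rw [uIcc_of_le hxy, uIcc_of_le hab]
    exact Icc_subset_Icc hx hy
  have hdiff : ∀ x y, a ≤ x → x ≤ y → y ≤ b → w y = w x + ∫ s in x..y, h s := by
    intro x y hx hxy hy
    rw [hw x ⟨hx, hxy.trans hy⟩, hw y ⟨hx.trans hxy, hy⟩, add_assoc,
      intervalIntegral.integral_add_adjacent_intervals (hint a x le_rfl hx (hxy.trans hy))
        (hint x y hx hxy hy)]
  set S : Set ℝ := Icc a t1 ∩ w ⁻¹' Iic 0 with hS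
  have hSc : IsClosed S :=
    (hcont.mono (Icc_subset_Icc le_rfl ht1.2)).preimage_isClosed_of_isClosed isClosed_Icc
      isClosed_Iic
  have haS : a ∈ S := by
    refine ⟨⟨le_rfl, ht1.1⟩, ?_⟩
    have := hw a ⟨le_rfl, hab⟩
    simp only [intervalIntegral.integral_same, add_zero] at this
    simp only [mem_preimage, mem_Iic, this]
    exact h0
  have hSb : BddAbove S := ⟨t1, fun t ht => ht.1.2⟩
  have ht0 : sSup S ∈ S := hSc.csSup_mem ⟨a, haS⟩ hSb
  set t0 := sSup S with ht0d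
  have h0a : a ≤ t0 := ht0.1.1
  have hwt0 : w t0 ≤ 0 := ht0.2
  have h01 : t0 < t1 := by
    rcases ht0.1.2.lt_or_eq with h | h
    · exact h
    · rw [h] at hwt0; linarith
  have hpos : ∀ t, t0 < t → t ≤ t1 → 0 < w t := by
    intro t h1 h2
    by_contra h3
    push Not at h3
    have : t ∈ S := ⟨⟨h0a.trans h1.le, h2⟩, h3⟩
    exact absurd (le_csSup hSb this) (not_le.2 h1)
  set t2 := min t1 (t0 + 1 / (2 * Λ + 1)) with ht2
  have hd : 0 < 1 / (2 * Λ + 1) := by positivity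
  have h02 : t0 < t2 := lt_min h01 (by linarith)
  have h21 : t2 ≤ t1 := min_le_left _ _
  have h22 : t2 - t0 ≤ 1 / (2 * Λ + 1) := by
    have := min_le_right t1 (t0 + 1 / (2 * Λ + 1)); linarith
  have hsub : Icc t0 t2 ⊆ Icc a b := Icc_subset_Icc h0a (h21.trans ht1.2)
  obtain ⟨tm, htm, hmax⟩ := isCompact_Icc.exists_isMaxOn (nonempty_Icc.2 h02.le)
    (hcont.mono hsub)
  have hm : 0 < w tm := lt_of_lt_of_le (hpos t2 h02 h21) (hmax (right_mem_Icc.2 h02.le))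
  have htm0 : t0 < tm := by
    rcases htm.1.lt_or_eq with h | h
    · exact h
    · rw [← h] at hm; linarith
  have h1 := hdiff t0 tm h0a htm0.le (htm.2.trans (h21.trans ht1.2))
  have h2 : ∫ s in t0..tm, h s ≤ ∫ s in t0..tm, Λ * w tm := by
    refine intervalIntegral.integral_mono_ae_restrict htm0.le
      (hint t0 tm h0a htm0.le (htm.2.trans (h21.trans ht1.2))) intervalIntegrable_const ?_
    have hne : ∀ᵐ s : ℝ, s ≠ t0 := by simp [ae_iff, measure_singleton]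
    filter_upwards [ae_restrict_of_ae hle, ae_restrict_of_ae hne,
      self_mem_ae_restrict measurableSet_Icc] with s hs1 hs3 hs2
    have hs4 : t0 < s := lt_of_le_of_ne hs2.1 (Ne.symm hs3)
    have hs5 : s ∈ Icc t0 t2 := ⟨hs2.1, hs2.2.trans htm.2⟩
    refine (hs1 (hsub hs5) (hpos s hs4 (hs5.2.trans h21))).trans ?_
    exact mul_le_mul_of_nonneg_left (hmax hs5) hΛ
  rw [intervalIntegral.integral_const, smul_eq_mul] at h2
  have h3 : tm - t0 ≤ 1 / (2 * Λ + 1) := by linarith [htm.2]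
  have h4 : (tm - t0) * (Λ * w tm) ≤ 1 / (2 * Λ + 1) * (Λ * w tm) :=
    mul_le_mul_of_nonneg_right h3 (by positivity)
  have h5 : 1 / (2 * Λ + 1) * (Λ * w tm) < w tm := by
    rw [one_div, inv_mul_lt_iff₀ (by positivity)]
    nlinarith
  linarith

/-- Chain rule for `r ↦ r⁻¹ ^ 2 / 2` along a Lipschitz positive function. -/
theorem chain_inv {b w0 c B : ℝ} {h : ℝ → ℝ} {w : ℝ → ℝ} (hb : 0 ≤ b) (hc : 0 < c)
    (hh : Measurable h) (hB : ∀ s ∈ Icc 0 b, |h s| ≤ B)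
    (hw : ∀ t ∈ Icc 0 b, w t = w0 + ∫ s in (0:ℝ)..t, h s) (hwc : ∀ t ∈ Icc 0 b, c ≤ w t) :
    ∀ t ∈ Icc 0 b, (w t)⁻¹ ^ 2 / 2 = w0⁻¹ ^ 2 / 2 + ∫ s in (0:ℝ)..t, - (w s)⁻¹ ^ 3 * h s := by
  intro t ht
  have hint : IntervalIntegrable h volume 0 b := ii_of_bdd hb hh hB
  have hB0 : 0 ≤ B := (abs_nonneg _).trans (hB 0 ⟨le_rfl, hb⟩)
  set W : ℝ → ℝ := fun t => w0 + ∫ s in (0:ℝ)..t, h s with hW
  have hWw : ∀ s ∈ Icc 0 b, W s = w s := fun s hs => (hw s hs).symm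
  have hlip : ∀ x ∈ Icc 0 b, ∀ y ∈ Icc 0 b, |W x - W y| ≤ B * |x - y| := by
    intro x hx y hy
    have hx' : IntervalIntegrable h volume 0 x :=
      hint.mono_set (by rw [uIcc_of_le hx.1, uIcc_of_le hb]; exact Icc_subset_Icc le_rfl hx.2)
    have hy' : IntervalIntegrable h volume 0 y :=
      hint.mono_set (by rw [uIcc_of_le hy.1, uIcc_of_le hb]; exact Icc_subset_Icc le_rfl hy.2)
    have : W x - W y = ∫ s in y..x, h s := by
      simp only [hW]
      rw [add_sub_add_left_eq_sub, intervalIntegral.integral_interval_sub_left hx' hy']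
    rw [this]
    have := intervalIntegral.norm_integral_le_of_norm_le_const (a := y) (b := x) (f := h) (C := B)
      (fun s hs => by
        rw [Real.norm_eq_abs]
        refine hB s ?_
        have h1 := uIoc_subset_uIcc hs
        rw [mem_uIcc] at h1
        rcases h1 with h1 | h1
        · exact ⟨hy.1.trans h1.1, h1.2.trans hx.2⟩
        · exact ⟨hx.1.trans h1.1, h1.2.trans hy.2⟩)
    rwa [Real.norm_eq_abs] at this
  set f : ℝ → ℝ := fun t => (W t)⁻¹ ^ 2 / 2 with hf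
  have hLf : LipschitzOnWith (Real.toNNReal (B / c ^ 3)) f (uIcc 0 t) := by
    rw [uIcc_of_le ht.1]
    refine LipschitzOnWith.of_dist_le_mul ?_
    intro x hx y hy
    have hx' : x ∈ Icc 0 b := ⟨hx.1, hx.2.trans ht.2⟩
    have hy' : y ∈ Icc 0 b := ⟨hy.1, hy.2.trans ht.2⟩
    have h1 : c ≤ W x := by rw [hWw x hx']; exact hwc x hx'
    have h2 : c ≤ W y := by rw [hWw y hy']; exact hwc y hy'
    have h3 := hlip x hx' y hy'
    rw [Real.dist_eq, Real.dist_eq, Real.coe_toNNReal _ (by positivity)]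
    have h4 : f x - f y = (W y - W x) * ((W x)⁻¹ * (W y)⁻¹ ^ 2 + (W x)⁻¹ ^ 2 * (W y)⁻¹) / 2 := by
      have h5 : W x ≠ 0 := by linarith [hc]
      have h6 : W y ≠ 0 := by linarith [hc]
      simp only [hf]
      field_simp
      ring
    have h7 : (W x)⁻¹ ≤ c⁻¹ := inv_anti₀ hc h1
    have h8 : (W y)⁻¹ ≤ c⁻¹ := inv_anti₀ hc h2
    have h9 : 0 < (W x)⁻¹ := inv_pos.2 (by linarith)
    have h10 : 0 < (W y)⁻¹ := inv_pos.2 (by linarith)
    have h11 : (W x)⁻¹ * (W y)⁻¹ ^ 2 ≤ c⁻¹ * c⁻¹ ^ 2 := by gcongr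
    have h12 : (W x)⁻¹ ^ 2 * (W y)⁻¹ ≤ c⁻¹ ^ 2 * c⁻¹ := by gcongr
    rw [h4, abs_div, abs_mul, abs_sub_comm (W y) (W x),
      abs_of_pos (show 0 < (W x)⁻¹ * (W y)⁻¹ ^ 2 + (W x)⁻¹ ^ 2 * (W y)⁻¹ by positivity),
      abs_of_pos (show (0:ℝ) < 2 by norm_num)]
    have h13 : (W x)⁻¹ * (W y)⁻¹ ^ 2 + (W x)⁻¹ ^ 2 * (W y)⁻¹ ≤ 2 * c⁻¹ ^ 3 := by
      calc _ ≤ c⁻¹ * c⁻¹ ^ 2 + c⁻¹ ^ 2 * c⁻¹ := add_le_add h11 h12
        _ = 2 * c⁻¹ ^ 3 := by ring
    calc |W x - W y| * ((W x)⁻¹ * (W y)⁻¹ ^ 2 + (W x)⁻¹ ^ 2 * (W y)⁻¹) / 2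
        ≤ (B * |x - y|) * (2 * c⁻¹ ^ 3) / 2 := by gcongr
      _ = B / c ^ 3 * |x - y| := by rw [inv_pow]; field_simp
  have hac := hLf.absolutelyContinuousOnInterval
  have h1 := hac.integral_deriv_eq_sub
  have hint' : IntervalIntegrable h volume 0 t :=
    hint.mono_set (by rw [uIcc_of_le ht.1, uIcc_of_le hb]; exact Icc_subset_Icc le_rfl ht.2)
  have h2 : ∫ s in (0:ℝ)..t, deriv f s = ∫ s in (0:ℝ)..t, - (w s)⁻¹ ^ 3 * h s := by
    refine intervalIntegral.integral_congr_ae ?_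
    filter_upwards [hint'.ae_hasDerivAt_integral] with s hs hs2
    have hs3 : s ∈ uIcc 0 t := uIoc_subset_uIcc hs2
    have hs4 := hs hs3 0 (by simp)
    have hs5 : HasDerivAt W (h s) s := by
      simpa [hW] using hs4.const_add w0
    have hs6 : s ∈ Icc 0 b := by
      rw [uIcc_of_le ht.1] at hs3; exact ⟨hs3.1, hs3.2.trans ht.2⟩
    have hs7 : W s ≠ 0 := by
      have := hwc s hs6
      rw [← hWw s hs6] at this
      linarith [hc]
    have hs8 : HasDerivAt f (((2:ℕ) * (W s)⁻¹ ^ (2 - 1) * (-h s / (W s) ^ 2)) / 2) s :=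
      ((hs5.inv hs7).pow 2).div_const 2
    rw [hs8.deriv, ← hWw s hs6]
    have h2c : ((2:ℕ):ℝ) = 2 := by norm_num
    rw [h2c, show (2 - 1 : ℕ) = 1 from rfl, pow_one]
    field_simp
  rw [h2] at h1
  have h3 : f t = (w t)⁻¹ ^ 2 / 2 := by simp only [hf]; rw [hWw t ht]
  have h4 : f 0 = w0⁻¹ ^ 2 / 2 := by simp [hf, hW]
  linarith

/-- Scalar orbits `U' = g - k U + v U³`, `U(0) = a`, in integrated form. -/
structure Orb (T k G M a : ℝ) (g v U : ℝ → ℝ) : Prop where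
  mg : Measurable g
  mv : Measurable v
  mU : Measurable U
  g0 : ∀ t ∈ Icc 0 T, 0 ≤ g t ∧ g t ≤ G
  v0 : ∀ t ∈ Icc 0 T, 0 ≤ v t ∧ v t ≤ 1
  U0 : ∀ t ∈ Icc 0 T, 0 ≤ U t ∧ U t ≤ M
  eq : ∀ t ∈ Icc 0 T, U t = a + ∫ s in (0:ℝ)..t, (g s - k * U s + v s * U s ^ 3)

variable {T k G M a : ℝ} {g v U : ℝ → ℝ}

theorem Orb.mh (h : Orb T k G M a g v U) : Measurable (fun s => g s - k * U s + v s * U s ^ 3) :=
  (h.mg.sub (h.mU.const_mul k)).add (h.mv.mul (h.mU.pow_const 3))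

theorem Orb.hB (h : Orb T k G M a g v U) (hk : 0 ≤ k) : ∀ s ∈ Icc 0 T,
    |g s - k * U s + v s * U s ^ 3| ≤ G + k * M + M ^ 3 := by
  intro s hs
  obtain ⟨g1, g2⟩ := h.g0 s hs
  obtain ⟨v1, v2⟩ := h.v0 s hs
  obtain ⟨u1, u2⟩ := h.U0 s hs
  have h1 : U s ^ 3 ≤ M ^ 3 := pow_le_pow_left₀ u1 u2 3
  have h2 : 0 ≤ U s ^ 3 := by positivity
  have h3 : v s * U s ^ 3 ≤ M ^ 3 := by nlinarith
  have h4 : 0 ≤ v s * U s ^ 3 := by positivity
  have h5 : 0 ≤ k * U s := by positivity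
  have h6 : k * U s ≤ k * M := by gcongr
  rw [abs_le]
  constructor <;> linarith [pow_nonneg (u1.trans u2) 3]

theorem Orb.int (h : Orb T k G M a g v U) (hk : 0 ≤ k) (hT : 0 ≤ T) :
    IntervalIntegrable (fun s => g s - k * U s + v s * U s ^ 3) volume 0 T :=
  ii_of_bdd hT h.mh (h.hB hk)

theorem Orb.eq2 (h : Orb T k G M a g v U) (hk : 0 ≤ k) {s t : ℝ} (hs : 0 ≤ s) (hst : s ≤ t)
    (ht : t ≤ T) : U t = U s + ∫ r in s..t, (g r - k * U r + v r * U r ^ 3) := by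
  have hT : 0 ≤ T := hs.trans (hst.trans ht)
  have hi := h.int hk hT
  rw [h.eq s ⟨hs, hst.trans ht⟩, h.eq t ⟨hs.trans hst, ht⟩, add_assoc,
    intervalIntegral.integral_add_adjacent_intervals]
  · refine hi.mono_set ?_
    rw [uIcc_of_le hs, uIcc_of_le hT]
    exact Icc_subset_Icc le_rfl (hst.trans ht)
  · refine hi.mono_set ?_
    rw [uIcc_of_le hst, uIcc_of_le hT]
    exact Icc_subset_Icc hs ht

/-- Orbits decay at most linearly. -/
theorem Orb.lower (h : Orb T k G M a g v U) (hk : 0 ≤ k) {s t : ℝ} (hs : 0 ≤ s) (hst : s ≤ t)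
    (ht : t ≤ T) : U s * (1 - k * (t - s)) ≤ U t := by
  have hT : 0 ≤ T := hs.trans (hst.trans ht)
  have hi := h.int hk hT
  have hi' : IntervalIntegrable (fun s => g s - k * U s + v s * U s ^ 3) volume s t :=
    hi.mono_set (by rw [uIcc_of_le hst, uIcc_of_le hT]; exact Icc_subset_Icc hs ht)
  have key := nonpos_of_integral (a := s) (b := t) (w0 := 0) (Λ := 0)
    (w := fun r => U s * (1 - k * (r - s)) - U r)
    (h := fun r => - (k * U s) - (g r - k * U r + v r * U r ^ 3)) le_rfl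
    (intervalIntegrable_const.sub hi') ?_ le_rfl ?_ t ⟨hst, le_rfl⟩
  · linarith
  · intro r hr
    rw [intervalIntegral.integral_sub intervalIntegrable_const
      (hi'.mono_set (by rw [uIcc_of_le hr.1, uIcc_of_le hst]; exact Icc_subset_Icc le_rfl hr.2))]
    have := h.eq2 hk hs hr.1 (hr.2.trans ht)
    rw [intervalIntegral.integral_const, smul_eq_mul, this]
    ring
  · refine Eventually.of_forall fun r hr hpos => ?_
    have hr' : r ∈ Icc 0 T := ⟨hs.trans hr.1, hr.2.trans ht⟩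
    obtain ⟨g1, g2⟩ := h.g0 r hr'
    obtain ⟨v1, v2⟩ := h.v0 r hr'
    obtain ⟨u1, u2⟩ := h.U0 r hr'
    obtain ⟨s1, s2⟩ := h.U0 s ⟨hs, hst.trans ht⟩
    have h4 : 0 ≤ v r * U r ^ 3 := by positivity
    have h5 : 0 ≤ U s * (k * (r - s)) := mul_nonneg s1 (mul_nonneg hk (by linarith [hr.1]))
    have h6 : U r ≤ U s := by nlinarith
    have h7 : k * U r ≤ k * U s := by gcongr
    rw [zero_mul]
    linarith

/-- Values at earlier times are at most twice the later ones. -/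
theorem Orb.half (h : Orb T k G M a g v U) (hk : 0 ≤ k) (hkT : k * T ≤ 1 / 2) {s t : ℝ}
    (hs : 0 ≤ s) (hst : s ≤ t) (ht : t ≤ T) : U s ≤ 2 * U t := by
  have h1 := h.lower hk hs hst ht
  obtain ⟨s1, s2⟩ := h.U0 s ⟨hs, hst.trans ht⟩
  have h2 : k * (t - s) ≤ 1 / 2 := by
    refine le_trans ?_ hkT
    exact mul_le_mul_of_nonneg_left (by linarith) hk
  nlinarith

/-- The absorbed mass is at most twice the current value. -/
theorem Orb.absorbed (h : Orb T k G M a g v U) (hk : 0 ≤ k) (hkT : k * T ≤ 1 / 2) (ha : 0 ≤ a)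
    {t : ℝ} (ht : t ∈ Icc 0 T) : ∫ s in (0:ℝ)..t, v s * U s ^ 3 ≤ 2 * U t := by
  have hT : 0 ≤ T := ht.1.trans ht.2
  have hsub : Icc 0 t ⊆ Icc 0 T := Icc_subset_Icc le_rfl ht.2
  have hM : ∀ s ∈ Icc 0 t, |v s * U s ^ 3| ≤ M ^ 3 := by
    intro s hs
    obtain ⟨v1, v2⟩ := h.v0 s (hsub hs)
    obtain ⟨u1, u2⟩ := h.U0 s (hsub hs)
    have h1 : U s ^ 3 ≤ M ^ 3 := pow_le_pow_left₀ u1 u2 3
    have h2 : 0 ≤ U s ^ 3 := by positivity
    rw [abs_of_nonneg (by positivity)]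
    nlinarith
  have i1 : IntervalIntegrable (fun s => v s * U s ^ 3) volume 0 t :=
    ii_of_bdd ht.1 (h.mv.mul (h.mU.pow_const 3)) hM
  have i2 : IntervalIntegrable g volume 0 t :=
    ii_of_bdd (C := G) ht.1 h.mg (fun s hs => by
      obtain ⟨g1, g2⟩ := h.g0 s (hsub hs)
      rwa [abs_of_nonneg g1])
  have i3 : IntervalIntegrable (fun s => k * U s) volume 0 t :=
    ii_of_bdd (C := k * M) ht.1 (h.mU.const_mul k) (fun s hs => by
      obtain ⟨u1, u2⟩ := h.U0 s (hsub hs)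
      rw [abs_of_nonneg (by positivity)]
      gcongr)
  have e := h.eq t ht
  rw [intervalIntegral.integral_add (i2.sub i3) i1, intervalIntegral.integral_sub i2 i3] at e
  have h1 : 0 ≤ ∫ s in (0:ℝ)..t, g s :=
    intervalIntegral.integral_nonneg ht.1 fun s hs => (h.g0 s (hsub hs)).1
  have h2 : ∫ s in (0:ℝ)..t, k * U s ≤ ∫ s in (0:ℝ)..t, k * (2 * U t) := by
    refine intervalIntegral.integral_mono_on ht.1 i3 intervalIntegrable_const fun s hs => ?_
    exact mul_le_mul_of_nonneg_left (h.half hk hkT hs.1 hs.2 ht.2) hk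
  rw [intervalIntegral.integral_const, smul_eq_mul] at h2
  have hU : 0 ≤ U t := (h.U0 t ht).1
  have h3 : (t - 0) * (k * (2 * U t)) ≤ U t := by
    have : k * t ≤ 1 / 2 := le_trans (mul_le_mul_of_nonneg_left ht.2 hk) hkT
    nlinarith
  linarith

/-- Starting from zero the orbit stays below `2 G t`. -/
theorem Orb.small (h : Orb T k G M 0 g v U) (hk : 0 ≤ k) (hT : 0 ≤ T) (hG : 0 ≤ G)
    (hM : 0 ≤ M) (hGT : (2 * G * T) ^ 3 ≤ G) {t : ℝ} (ht : t ∈ Icc 0 T) : U t ≤ 2 * G * t := by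
  have hi := h.int hk hT
  have key := nonpos_of_integral (a := 0) (b := T) (w0 := 0)
    (Λ := 3 * (M + 2 * G * T) ^ 2)
    (w := fun r => U r - 2 * G * r)
    (h := fun r => (g r - k * U r + v r * U r ^ 3) - 2 * G) (by positivity)
    (hi.sub intervalIntegrable_const) ?_ le_rfl ?_ t ht
  · linarith
  · intro r hr
    rw [intervalIntegral.integral_sub (hi.mono_set (by
      rw [uIcc_of_le hr.1, uIcc_of_le hT]; exact Icc_subset_Icc le_rfl hr.2))
      intervalIntegrable_const, intervalIntegral.integral_const, smul_eq_mul, h.eq r hr]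
    ring
  · refine Eventually.of_forall fun r hr hpos => ?_
    obtain ⟨g1, g2⟩ := h.g0 r hr
    obtain ⟨v1, v2⟩ := h.v0 r hr
    obtain ⟨u1, u2⟩ := h.U0 r hr
    have h1 : 0 ≤ k * U r := by positivity
    have h2 : v r * U r ^ 3 ≤ U r ^ 3 := by
      have : 0 ≤ U r ^ 3 := by positivity
      nlinarith
    have h3 : 0 ≤ 2 * G * r := by have := hr.1; positivity
    have h4 : 2 * G * r ≤ 2 * G * T := by have := hr.2; gcongr
    have h5 : (2 * G * r) ^ 3 ≤ G := (pow_le_pow_left₀ h3 h4 3).trans hGT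
    have h6 : U r ^ 3 - (2 * G * r) ^ 3 ≤ 3 * (M + 2 * G * T) ^ 2 * (U r - 2 * G * r) := by
      have e1 : U r ^ 3 - (2 * G * r) ^ 3
          = (U r ^ 2 + U r * (2 * G * r) + (2 * G * r) ^ 2) * (U r - 2 * G * r) := by ring
      rw [e1]
      refine mul_le_mul_of_nonneg_right ?_ hpos.le
      have h7 : U r ≤ M + 2 * G * T := by linarith
      have h8 : 2 * G * r ≤ M + 2 * G * T := by linarith
      have h9 : U r ^ 2 ≤ (M + 2 * G * T) ^ 2 := pow_le_pow_left₀ u1 h7 2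
      have h10 : (2 * G * r) ^ 2 ≤ (M + 2 * G * T) ^ 2 := pow_le_pow_left₀ h3 h8 2
      have h11 : U r * (2 * G * r) ≤ (M + 2 * G * T) * (M + 2 * G * T) :=
        mul_le_mul h7 h8 h3 (by positivity)
      nlinarith
    linarith

end Pool.Agent.H522R3.Nlr
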